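import Pool.Agent.Rank22.Geo1
import Pool.Agent.FPZ.AbCov1

/-!
# Zero-cycles on a curve which are rationally equivalent to zero are divisors of functions
(up to a multiple): the norm
-/

set_option autoImplicit false

noncomputable section

namespace Pool.Agent.Rank22

open Pool.Agent.ZCyc Pool.Agent.Dess Pool.Agent.Dess4 Pool.Agent.FPZ IntermediateField Module
open scoped Classical

section Range

variable {k F E : Type} [Field k] [Field F] [Algebra k F] [Field E] [Algebra k E]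

/-- the degree of the image -/
theorem finrank_range (ψ : F →ₐ[k] E) :
    @finrank F E _ _ (ψ : F →+* E).toAlgebra.toModule = finrank ψ.fieldRange E := by
  let _ : Algebra F E := (ψ : F →+* E).toAlgebra
  refine Algebra.finrank_eq_of_equiv_equiv (AlgEquiv.ofInjectiveField ψ).toRingEquiv
    (RingEquiv.refl E) ?_
  ext y
  rfl

theorem galois_range {t : E} (hfin : FiniteDimensional (adjoin k {t}) E)
    (hgal : IsGalois (adjoin k {t}) E) (ψ : F →ₐ[k] E) {u : F} (hu : ψ u = t) :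
    FiniteDimensional ψ.fieldRange E ∧ IsGalois ψ.fieldRange E := by
  have hle : adjoin k {t} ≤ ψ.fieldRange := adjoin_simple_le_iff.2 ⟨u, hu⟩
  let _ : Algebra (adjoin k {t}) ψ.fieldRange := (inclusion hle).toRingHom.toAlgebra
  have : IsScalarTower (adjoin k {t}) ψ.fieldRange E := IsScalarTower.of_algebraMap_eq' rfl
  exact ⟨FiniteDimensional.right (adjoin k {t}) ψ.fieldRange E,
    IsGalois.tower_top_of_isGalois (adjoin k {t}) ψ.fieldRange E⟩

end Range

variable {k F M : Type} [Field k] [IsAlgClosed k] [CharZero k] [Field F] [Algebra k F] [Field M]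
  [Algebra k M]

/-- the order of the pull-back at the points above a point -/
theorem sum_pull (hF : IsCurve k F) (hM : IsCurve k M) (φ : F →ₐ[k] M)
    {π : Place k M → Place k F} (hπ : ∀ V, V.ring.comap (φ : F →+* M) = (π V).ring) {v : Place k F}
    {S : Finset (Place k M)} (hS : ∀ V, V ∈ S ↔ π V = v) {g : F} (hg : g ≠ 0) {n : ℤ}
    (hn : HasOrd v g n) {m : Place k M → ℤ} (hm : ∀ V ∈ S, HasOrd V (φ g) (m V)) :
    ∑ V ∈ S, m V = n * finrank φ.fieldRange M := by
  obtain ⟨S', hS', hsum⟩ := fibre_sum hF hM φ π hπ v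
  have hSS : S' = S := by
    ext V
    rw [hS, hS']
  subst hSS
  obtain ⟨ϖ, hϖ⟩ := exists_unif hF v
  choose e he using fun V => exists_hasOrd hM V ((map_ne_zero φ).2 hϖ.1)
  have h1 := hsum ϖ e hϖ fun V _ => he V
  rw [finrank_range] at h1
  rw [← h1, Finset.mul_sum]
  refine Finset.sum_congr rfl fun V hV => ?_
  refine hasOrd_unique hM ((map_ne_zero φ).2 hg) (hm V hV) ?_
  exact ord_pull (by rw [hπ, (hS V).1 hV]) hϖ (he V) hn

omit [IsAlgClosed k] [CharZero k] in
theorem map_symm_map (σ : M ≃ₐ[k] M) (V : Place k M) : (V.map σ.symm).map σ = V := by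
  rw [Place.map_map]
  have : σ.symm.trans σ = 1 := by
    ext u
    simp
  rw [this, Place.map_one]

omit [IsAlgClosed k] [CharZero k] in
theorem map_map_symm (σ : M ≃ₐ[k] M) (V : Place k M) : (V.map σ).map σ.symm = V := by
  rw [Place.map_map]
  have : σ.trans σ.symm = 1 := by
    ext u
    simp
  rw [this, Place.map_one]

/-- **The norm for a Galois covering.** -/
theorem norm_galois (hF : IsCurve k F) (hM : IsCurve k M) (φ : F →ₐ[k] M)
    [FiniteDimensional φ.fieldRange M] [IsGalois φ.fieldRange M]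
    {π : Place k M → Place k F} (hπ : ∀ V, V.ring.comap (φ : F →+* M) = (π V).ring) {b : M}
    (hb : b ≠ 0) {B : Place k M →₀ ℤ} (hB : ∀ V, HasOrd V b (B V)) :
    ∃ G : F, G ≠ 0 ∧ ∀ v, HasOrd v G ((B.mapDomain π) v) := by
  set N : φ.fieldRange := Algebra.norm φ.fieldRange b with hN
  have hNeq : (N : M) = ∏ σ : M ≃ₐ[φ.fieldRange] M, σ b := by
    have := Algebra.norm_eq_prod_automorphisms φ.fieldRange b
    exact this
  obtain ⟨G, hG⟩ := N.2
  have hG' : φ G = ∏ σ : M ≃ₐ[φ.fieldRange] M, σ b := hG.trans hNeq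
  have hG0 : G ≠ 0 := by
    rintro rfl
    rw [map_zero] at hG'
    have := Finset.prod_eq_zero_iff.1 hG'.symm
    obtain ⟨σ, -, h1⟩ := this
    exact hb ((map_eq_zero σ).1 h1)
  refine ⟨G, hG0, fun v => ?_⟩
  obtain ⟨n, hn⟩ := exists_hasOrd hF v hG0
  obtain ⟨S, hS, -⟩ := fibre_sum hF hM φ π hπ v
  let R : (M ≃ₐ[φ.fieldRange] M) → (M ≃ₐ[k] M) := fun σ => σ.restrictScalars k
  have hfix : ∀ (σ : M ≃ₐ[φ.fieldRange] M) (f : F), R σ (φ f) = φ f := fun σ f =>
    σ.commutes (⟨φ f, f, rfl⟩ : φ.fieldRange)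
  have hfix' : ∀ (σ : M ≃ₐ[φ.fieldRange] M) (f : F), (R σ).symm (φ f) = φ f := by
    intro σ f
    rw [AlgEquiv.symm_apply_eq, hfix]
  have hSσ : ∀ (σ : M ≃ₐ[φ.fieldRange] M) (V : Place k M), π (V.map (R σ).symm) = π V := by
    intro σ V
    apply Place.ext
    rw [← hπ, ← hπ]
    ext f
    rw [ValuationSubring.mem_comap, ValuationSubring.mem_comap, Place.mem_map]
    change (R σ).symm.symm (φ f) ∈ _ ↔ φ f ∈ _
    rw [AlgEquiv.symm_symm, hfix]
  have hSσ' : ∀ (σ : M ≃ₐ[φ.fieldRange] M) (V : Place k M), π (V.map (R σ)) = π V := by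
    intro σ V
    apply Place.ext
    rw [← hπ, ← hπ]
    ext f
    rw [ValuationSubring.mem_comap, ValuationSubring.mem_comap, Place.mem_map]
    change (R σ).symm (φ f) ∈ _ ↔ φ f ∈ _
    rw [hfix']
  have h1 : ∀ V, HasOrd V (φ G) (∑ σ : M ≃ₐ[φ.fieldRange] M, B (V.map (R σ).symm)) := by
    intro V
    rw [hG']
    apply ord_prod hM
    intro σ _
    have h2 := ord_map (R σ) (hB (V.map (R σ).symm))
    rw [map_symm_map] at h2
    exact h2
  have h2 := sum_pull hF hM φ hπ hS hG0 hn fun V _ => h1 V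
  rw [Finset.sum_comm] at h2
  have h3 : ∀ σ : M ≃ₐ[φ.fieldRange] M, ∑ V ∈ S, B (V.map (R σ).symm) = ∑ V ∈ S, B V := by
    intro σ
    refine Finset.sum_bij' (fun V _ => V.map (R σ).symm) (fun V _ => V.map (R σ)) ?_ ?_ ?_ ?_ ?_
    · intro V hV
      rw [hS, hSσ]
      exact (hS V).1 hV
    · intro V hV
      rw [hS, hSσ']
      exact (hS V).1 hV
    · intro V _
      exact map_symm_map _ _
    · intro V _
      exact map_map_symm _ _
    · intro V _
      rfl
  rw [Finset.sum_congr rfl fun σ _ => h3 σ, Finset.sum_const, Finset.card_univ, nsmul_eq_mul,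
    ← Nat.card_eq_fintype_card, IsGalois.card_aut_eq_finrank, mul_comm] at h2
  have h4 : ((finrank φ.fieldRange M : ℕ) : ℤ) ≠ 0 := by
    exact_mod_cast (finrank_pos (R := φ.fieldRange) (M := M)).ne'
  have h5 := mul_right_cancel₀ h4 h2
  rw [mapDomain_fibre π B hS, h5]
  exact hn

/-- **The norm.** A multiple of the push-forward of the divisor of a function is the divisor of a
function. -/
theorem norm_fun (hF : IsCurve k F) (hM : IsCurve k M) (φ : F →ₐ[k] M)
    {π : Place k M → Place k F} (hπ : ∀ V, V.ring.comap (φ : F →+* M) = (π V).ring) {g : M}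
    (hg : g ≠ 0) {D : Place k M →₀ ℤ} (hD : ∀ V, HasOrd V g (D V)) :
    ∃ (m : ℕ) (G : F), 0 < m ∧ G ≠ 0 ∧ ∀ v, HasOrd v G (m * (D.mapDomain π) v) := by
  obtain ⟨t₀, ht₀, -⟩ := id hF
  have ht₁ : Transcendental k (φ t₀) := by
    intro h1
    exact ht₀ ((isAlgebraic_algHom_iff φ φ.injective).mp h1)
  have hfin := fin_adjoin hM ht₁
  obtain ⟨Ω, _, _, tt, hΩ⟩ := exists_algFun k
  obtain ⟨E, _, _, t, φ₁, -, ht, hE, hgal, hφ₁, -⟩ := exists_galois hΩ ht₁ ht₁ hfin hfin
  have hEc : IsCurve k E := ⟨t, ht, hE⟩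
  obtain ⟨h1, h2⟩ := galois_range hE hgal (φ₁.comp φ) (u := t₀) hφ₁
  obtain ⟨h3, -⟩ := galois_range hE hgal φ₁ (u := φ t₀) hφ₁
  obtain ⟨Ψ, hΨ⟩ := exists_proj hM hEc φ₁
  have hφg : φ₁ g ≠ 0 := (map_ne_zero φ₁).2 hg
  obtain ⟨B, hB⟩ := exists_div hEc hφg
  have hπΨ : ∀ W, W.ring.comap ((φ₁.comp φ : F →ₐ[k] E) : F →+* E) = ((π ∘ Ψ) W).ring := by
    intro W
    change _ = (π (Ψ W)).ring
    rw [← hπ, ← hΨ]
    rfl
  obtain ⟨G, hG0, hG⟩ := norm_galois hF hEc (φ₁.comp φ) hπΨ hφg hB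
  refine ⟨finrank φ₁.fieldRange E, G, finrank_pos, hG0, fun v => ?_⟩
  have h4 : B.mapDomain Ψ = (finrank φ₁.fieldRange E : ℤ) • D := by
    ext V
    obtain ⟨S, hS, -⟩ := fibre_sum hM hEc φ₁ Ψ hΨ V
    rw [mapDomain_fibre Ψ B hS, sum_pull hM hEc φ₁ hΨ hS hg (hD V) fun W _ => hB W,
      Finsupp.smul_apply, smul_eq_mul, mul_comm]
  have h5 : B.mapDomain (π ∘ Ψ) = (finrank φ₁.fieldRange E : ℤ) • D.mapDomain π := by
    rw [Finsupp.mapDomain_comp, h4, Finsupp.mapDomain_smul]
  have h6 := hG v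
  rw [h5, Finsupp.smul_apply, smul_eq_mul] at h6
  exact h6

/-- **Rational equivalence on a curve is linear equivalence** (up to a multiple). -/
theorem ratEq_fun (hF : IsCurve k F) {z : (Unit → Place k F) →₀ ℤ}
    (hz : z ∈ RatEq (k := k) fun _ : Unit => F) :
    ∃ (m : ℕ) (G : F), 0 < m ∧ G ≠ 0 ∧ ∀ v, HasOrd v G (m * z fun _ => v) := by
  unfold RatEq at hz
  induction hz using AddSubgroup.closure_induction with
  | mem z hz =>
    obtain ⟨M, _, _, φ, g, S, n, hM, hφ, hg, h1, h2, rfl⟩ := hz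
    rcases hφ () with ⟨p, hp⟩ | ⟨f, hf⟩
    · refine ⟨1, 1, one_pos, one_ne_zero, fun v => ?_⟩
      have h3 : ∀ V, φ V = fun _ => p := fun V => funext fun _ => hp V
      have h4 : (∑ V ∈ S, Finsupp.single (φ V) (n V) : (Unit → Place k F) →₀ ℤ) = 0 := by
        simp_rw [h3]
        rw [← Finsupp.single_finsetSum, degree_zero hM hg S n h1 h2, Finsupp.single_zero]
      rw [h4, Finsupp.zero_apply, mul_zero]
      exact ord_at hF (at_one (k := k) v) one_ne_zero
    · obtain ⟨D, hD⟩ := exists_div hM hg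
      have h3 : ∀ V, V.ring.comap (f : F →+* M) = (φ V ()).ring := fun V => (hf V).symm
      obtain ⟨m, G, hm, hG0, hG⟩ := norm_fun hF hM f (π := fun V => φ V ()) h3 hg hD
      refine ⟨m, G, hm, hG0, fun v => ?_⟩
      have h4 : D = ∑ V ∈ S, Finsupp.single V (n V) := by
        ext V
        rw [Finsupp.finsetSum_apply]
        by_cases hV : V ∈ S
        · rw [Finset.sum_eq_single V]
          · rw [Finsupp.single_eq_same]
            exact hasOrd_unique hM hg (hD V) (h1 V hV)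
          · intro W _ hW
            exact Finsupp.single_eq_of_ne hW.symm
          · exact fun h => absurd hV h
        · rw [Finset.sum_eq_zero]
          · exact hasOrd_unique hM hg (hD V) (h2 V hV)
          · intro W hW
            apply Finsupp.single_eq_of_ne
            rintro rfl
            exact hV hW
      have h5 : (D.mapDomain fun V => φ V ()) v =
          (∑ V ∈ S, Finsupp.single (φ V) (n V) : (Unit → Place k F) →₀ ℤ) fun _ => v := by
        rw [h4, Finsupp.mapDomain_finsetSum, Finsupp.finsetSum_apply, Finsupp.finsetSum_apply]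
        refine Finset.sum_congr rfl fun V _ => ?_
        rw [Finsupp.mapDomain_single, Finsupp.single_apply, Finsupp.single_apply]
        by_cases h : φ V () = v
        · rw [if_pos h, if_pos (funext fun _ => h)]
        · rw [if_neg h, if_neg fun h6 => h (congrFun h6 ())]
      rw [← h5]
      exact hG v
  | zero =>
    refine ⟨1, 1, one_pos, one_ne_zero, fun v => ?_⟩
    rw [Finsupp.zero_apply, mul_zero]
    exact ord_at hF (at_one (k := k) v) one_ne_zero
  | add z w _ _ hz hw =>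
    obtain ⟨m, G, hm, hG0, hG⟩ := hz
    obtain ⟨m', G', hm', hG0', hG'⟩ := hw
    refine ⟨m * m', G ^ m' * G' ^ m, Nat.mul_pos hm hm', mul_ne_zero (pow_ne_zero _ hG0)
      (pow_ne_zero _ hG0'), fun v => ?_⟩
    have h1 := ord_mul (ord_pow (hG v) m') (ord_pow (hG' v) m)
    convert h1 using 1
    rw [Finsupp.add_apply]
    push_cast
    ring
  | neg z _ hz =>
    obtain ⟨m, G, hm, hG0, hG⟩ := hz
    refine ⟨m, G⁻¹, hm, inv_ne_zero hG0, fun v => ?_⟩
    have h1 := hasOrd_inv (hG v)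
    rwa [← mul_neg] at h1

end Pool.Agent.Rank22
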