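import Pool.Agent.Rank22.Irr

/-!
# Twenty-two points and Legendre symbols

The functions `A + B y` with zeros at the twenty-two given points and no other zero at a finite
point are constant.
-/

set_option autoImplicit false

noncomputable section

namespace Pool.Agent.Rank22

open Polynomial

/-- The numerators of the abscissas of the points. -/
def num : Fin 22 → ℤ :=
  ![-47, -59, -3, -17, 11, 11, 124, -139, -15, 62, 20, 115, 13, 40, 7, 116, 24, 36, 135, 12,
    100, -32]

/-- The denominators of the abscissas of the points. -/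
def den : Fin 22 → ℤ :=
  ![4, 15, 16, 28, 18, 12, 63, 88, 2, 21, 3, 98, 10, 17, 4, 15, 7, 83, 133, 35, 19, 101]

/-- The abscissas of the points. -/
def absc (i : Fin 22) : ℚ := (num i : ℚ) / den i

/-- The possible prime divisors of the constant. -/
def qq : Fin 7 → ℤ := ![-1, 2, 5, 17, 19, 41, 73]

/-- The power of `v` with exponent `(p - 1) / 2` modulo `p`. -/
def resid (p : ℕ) (v : ℤ) : ℕ := (v % p).toNat ^ ((p - 1) / 2) % p

/-- A prime `p`, a root `t` of `f` modulo `p`, and the Legendre symbols. -/
structure Row where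
  /-- the prime -/
  p : ℕ
  /-- the root -/
  t : ℤ
  /-- the Legendre symbols, in binary notation -/
  m : ℕ

/-- The table of the primes, roots and Legendre symbols. -/
def table : List Row :=
  [⟨13, 7, 409550710⟩, ⟨23, 5, 31272861⟩, ⟨37, 24, 528449182⟩, ⟨43, 35, 39048279⟩,
   ⟨61, 7, 477220362⟩, ⟨67, 23, 182494631⟩, ⟨97, 25, 201723708⟩, ⟨101, 61, 337863906⟩,
   ⟨103, 53, 20013765⟩, ⟨103, 87, 58907845⟩, ⟨103, 90, 209139013⟩, ⟨107, 32, 516448463⟩,
   ⟨109, 35, 373023546⟩, ⟨109, 96, 44290618⟩, ⟨127, 68, 17036165⟩, ⟨149, 9, 151526050⟩,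
   ⟨149, 20, 522184738⟩, ⟨151, 40, 453337313⟩, ⟨157, 79, 86923366⟩, ⟨163, 20, 196434143⟩,
   ⟨163, 87, 491660383⟩, ⟨163, 112, 210760543⟩, ⟨167, 64, 12037613⟩, ⟨167, 107, 392051565⟩,
   ⟨179, 137, 462122211⟩, ⟨181, 42, 244653370⟩, ⟨197, 92, 240688334⟩, ⟨307, 59, 344590791⟩]

/-- The check of a row of the table. -/
def Row.ok (x : Row) : Bool :=
  ((247747600 + (-985905640) * x.t + 567207969 * x.t ^ 2 + 2396040466 * x.t ^ 3 +
    52485681 * x.t ^ 4 + (-470135160) * x.t ^ 5 + 82342800 * x.t ^ 6) % x.p == 0) &&
  ((List.finRange 7).all fun j =>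
    resid x.p (qq j) == if x.m.testBit j then x.p - 1 else 1) &&
  ((List.finRange 22).all fun i =>
    resid x.p (den i * x.t - num i) == if x.m.testBit (7 + i) then x.p - 1 else 1)

theorem table_ok : table.all Row.ok = true := by decide

/-- The combinations of the rows which are the unit vectors. -/
def comb : Fin 29 → ℕ :=
  ![233140192, 33760693, 477107389, 129080820, 282249943, 402011664, 142022191, 391642361,
    291056438, 136438752, 535518383, 101285412, 105186455, 315169797, 363100786, 335278508,
    176033883, 304805106, 447166650, 450525134, 471418490, 44300458, 191314849, 196263096,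
    356366487, 468240532, 299625037, 86620502, 427767013]

/-- The sum modulo two of the rows selected by the digits of `s`. -/
def xorSel : List ℕ → ℕ → ℕ
  | [], _ => 0
  | r :: rs, s => (if s % 2 = 1 then r else 0) ^^^ xorSel rs (s / 2)

theorem comb_ok : ((List.finRange 29).all fun j =>
    xorSel (536870784 :: table.map Row.m) (comb j) == 2 ^ (j : ℕ)) = true := by decide

end Pool.Agent.Rank22
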