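import Pool.Agent.Rank22.Modp

/-!
# The sextic polynomial of the record curve

Its leading coefficient is not a square, it is irreducible over the rational numbers, and the
only primes modulo which it is a square are 2, 5, 17, 19, 41, 73.
-/

set_option autoImplicit false

noncomputable section

namespace Pool.Agent.Rank22

open Polynomial

/-- The polynomial with seven given coefficients. -/
def poly7 {R : Type*} [CommRing R] (c0 c1 c2 c3 c4 c5 c6 : R) : R[X] :=
  C c0 + C c1 * X + C c2 * X ^ 2 + C c3 * X ^ 3 + C c4 * X ^ 4 + C c5 * X ^ 5 + C c6 * X ^ 6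

section

variable {R : Type*} [CommRing R] (c0 c1 c2 c3 c4 c5 c6 : R)

theorem poly7_coeff (k : ℕ) : (poly7 c0 c1 c2 c3 c4 c5 c6).coeff k =
    if k = 0 then c0 else if k = 1 then c1 else if k = 2 then c2 else if k = 3 then c3 else
    if k = 4 then c4 else if k = 5 then c5 else if k = 6 then c6 else 0 := by
  unfold poly7
  simp only [coeff_add, coeff_C, coeff_C_mul, coeff_X, coeff_X_pow]
  rcases k with _ | _ | _ | _ | _ | _ | _ | k
  all_goals simp

theorem poly7_natDegree_le : (poly7 c0 c1 c2 c3 c4 c5 c6).natDegree ≤ 6 := by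
  rw [natDegree_le_iff_coeff_eq_zero]
  intro k hk
  rw [poly7_coeff]
  have : ¬ k = 0 ∧ ¬ k = 1 ∧ ¬ k = 2 ∧ ¬ k = 3 ∧ ¬ k = 4 ∧ ¬ k = 5 ∧ ¬ k = 6 := by omega
  simp [this]

theorem poly7_map {S : Type*} [CommRing S] (φ : R →+* S) :
    (poly7 c0 c1 c2 c3 c4 c5 c6).map φ =
      poly7 (φ c0) (φ c1) (φ c2) (φ c3) (φ c4) (φ c5) (φ c6) := by
  unfold poly7
  simp [Polynomial.map_add, Polynomial.map_mul, Polynomial.map_pow]

theorem poly7_natDegree (h : c6 ≠ 0) : (poly7 c0 c1 c2 c3 c4 c5 c6).natDegree = 6 := by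
  apply le_antisymm (poly7_natDegree_le _ _ _ _ _ _ _)
  apply le_natDegree_of_ne_zero
  rw [poly7_coeff]
  simpa using h

theorem poly7_leadingCoeff (h : c6 ≠ 0) :
    (poly7 c0 c1 c2 c3 c4 c5 c6).leadingCoeff = c6 := by
  rw [leadingCoeff, poly7_natDegree _ _ _ _ _ _ _ h, poly7_coeff]
  simp

end

/-- The polynomial `f`, with integral coefficients. -/
def sexticZ : ℤ[X] :=
  poly7 247747600 (-985905640) 567207969 2396040466 52485681 (-470135160) 82342800

/-- Three relations between the coefficients of a square of a polynomial of degree at most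
three. -/
def relA {R : Type*} [CommRing R] (c0 c1 c2 c3 c4 : R) : R :=
  4 * c1 * (8 * c0 ^ 2 * c3 - c1 * (4 * c0 * c2 - c1 ^ 2)) + (4 * c0 * c2 - c1 ^ 2) ^ 2 -
    64 * c0 ^ 3 * c4

/-- See `relA`. -/
def relB {R : Type*} [CommRing R] (c0 c1 c2 c3 c5 : R) : R :=
  (4 * c0 * c2 - c1 ^ 2) * (8 * c0 ^ 2 * c3 - c1 * (4 * c0 * c2 - c1 ^ 2)) - 64 * c0 ^ 4 * c5

/-- See `relA`. -/
def relC {R : Type*} [CommRing R] (c0 c1 c2 c3 c6 : R) : R :=
  (8 * c0 ^ 2 * c3 - c1 * (4 * c0 * c2 - c1 ^ 2)) ^ 2 - 256 * c0 ^ 5 * c6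

theorem rel_of_sq {p : ℕ} [Fact p.Prime] {c0 c1 c2 c3 c4 c5 c6 : ZMod p} {g : (ZMod p)[X]}
    (h : poly7 c0 c1 c2 c3 c4 c5 c6 = g ^ 2) :
    relA c0 c1 c2 c3 c4 = 0 ∧ relB c0 c1 c2 c3 c5 = 0 ∧ relC c0 c1 c2 c3 c6 = 0 := by
  have hdeg : g.natDegree < 4 := by
    have h1 := poly7_natDegree_le c0 c1 c2 c3 c4 c5 c6
    rw [h, natDegree_pow] at h1
    omega
  set g0 := g.coeff 0 with hg0
  set g1 := g.coeff 1 with hg1
  set g2 := g.coeff 2 with hg2
  set g3 := g.coeff 3 with hg3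
  have hg : g = C g0 + C g1 * X + C g2 * X ^ 2 + C g3 * X ^ 3 := by
    conv_lhs => rw [g.as_sum_range_C_mul_X_pow' hdeg]
    simp [Finset.sum_range_succ, hg0, hg1, hg2, hg3]
  have h2 : g ^ 2 = poly7 (g0 ^ 2) (2 * g0 * g1) (2 * g0 * g2 + g1 ^ 2)
      (2 * g0 * g3 + 2 * g1 * g2) (2 * g1 * g3 + g2 ^ 2) (2 * g2 * g3) (g3 ^ 2) := by
    rw [hg]
    unfold poly7
    simp only [C_mul, C_add, C_pow, map_ofNat]
    ring
  rw [h2] at h
  have e : ∀ k : ℕ, _ := fun k => congrArg (fun q : (ZMod p)[X] => q.coeff k) h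
  simp only [poly7_coeff] at e
  have e0 := e 0
  have e1 := e 1
  have e2 := e 2
  have e3 := e 3
  have e4 := e 4
  have e5 := e 5
  have e6 := e 6
  simp at e0 e1 e2 e3 e4 e5 e6
  rw [e0, e1, e2, e3, e4, e5, e6]
  unfold relA relB relC
  refine ⟨by ring, by ring, by ring⟩

/-- Modulo a prime different from 2, 5, 17, 19, 41, 73 the polynomial is not a square. -/
theorem sexticZ_not_sq {p : ℕ} (hpp : p.Prime)
    (hp : p ≠ 2 ∧ p ≠ 5 ∧ p ≠ 17 ∧ p ≠ 19 ∧ p ≠ 41 ∧ p ≠ 73) (g : (ZMod p)[X]) :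
    sexticZ.map (Int.castRingHom (ZMod p)) ≠ g ^ 2 := by
  intro h
  have : Fact p.Prime := ⟨hpp⟩
  unfold sexticZ at h
  rw [poly7_map] at h
  obtain ⟨h1, h2, h3⟩ := rel_of_sq h
  have key : ∀ n : ℤ, (n : ZMod p) = 0 → p ∣ n.natAbs := by
    intro n hn
    exact Int.natCast_dvd.1 ((ZMod.intCast_zmod_eq_zero_iff_dvd n p).1 hn)
  have d1 := key (-2929087197245145152097593081856000000) (by
    rw [← h1]
    unfold relA
    simp only [eq_intCast]
    push_cast
    ring)
  have d2 := key (-203259351303834043435295475643167539200000000) (by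
    rw [← h2]
    unfold relB
    simp only [eq_intCast]
    push_cast
    ring)
  have d3 := key 576919562176042223988697199921840477396008960000000000 (by
    rw [← h3]
    unfold relC
    simp only [eq_intCast]
    push_cast
    ring)
  have d4 : p ∣ Nat.gcd 2929087197245145152097593081856000000
      (Nat.gcd 203259351303834043435295475643167539200000000
        576919562176042223988697199921840477396008960000000000) :=
    Nat.dvd_gcd d1 (Nat.dvd_gcd d2 d3)
  have e : Nat.gcd 2929087197245145152097593081856000000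
      (Nat.gcd 203259351303834043435295475643167539200000000
        576919562176042223988697199921840477396008960000000000) =
      2 ^ 20 * 5 ^ 6 * 17 ^ 2 * 19 * 41 * 73 := by norm_num
  rw [e] at d4
  have pr : ∀ q : ℕ, q.Prime → p ∣ q → p = q := fun q hq h => (Nat.prime_dvd_prime_iff_eq hpp hq).1 h
  simp only [hpp.dvd_mul] at d4
  obtain ⟨n2, n5, n17, n19, n41, n73⟩ := hp
  rcases d4 with ((((h4 | h4) | h4) | h4) | h4) | h4
  · exact n2 (pr 2 (by norm_num) (hpp.dvd_of_dvd_pow h4))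
  · exact n5 (pr 5 (by norm_num) (hpp.dvd_of_dvd_pow h4))
  · exact n17 (pr 17 (by norm_num) (hpp.dvd_of_dvd_pow h4))
  · exact n19 (pr 19 (by norm_num) h4)
  · exact n41 (pr 41 (by norm_num) h4)
  · exact n73 (pr 73 (by norm_num) h4)

/-- The polynomial `f` over the rational numbers. -/
abbrev sexticQ : ℚ[X] := sexticZ.map (Int.castRingHom ℚ)

theorem sexticQ_eq : sexticQ = poly7 247747600 (-985905640) 567207969 2396040466 52485681
    (-470135160) 82342800 := by
  unfold sexticQ sexticZ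
  rw [poly7_map]
  simp only [eq_intCast]
  push_cast
  rfl

theorem sexticQ_natDegree : sexticQ.natDegree = 6 := by
  rw [sexticQ_eq]
  exact poly7_natDegree _ _ _ _ _ _ _ (by norm_num)

theorem sexticQ_leadingCoeff : ¬ IsSquare sexticQ.leadingCoeff := by
  rw [sexticQ_eq, poly7_leadingCoeff _ _ _ _ _ _ _ (by norm_num)]
  rw [show (82342800 : ℚ) = ((82342800 : ℕ) : ℚ) by norm_num, Rat.isSquare_natCast_iff]
  rintro ⟨n, hn⟩
  have h1 : n < 9075 := by
    by_contra h
    have : 9075 * 9075 ≤ n * n := Nat.mul_le_mul (by omega) (by omega)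
    omega
  have h2 : 9074 < n := by
    by_contra h
    have : n * n ≤ 9074 * 9074 := Nat.mul_le_mul (by omega) (by omega)
    omega
  omega

end Pool.Agent.Rank22
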