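import Pool.Agent.Rank22.Row

/-!
# The twenty-two points are independent: polynomial form
-/

set_option autoImplicit false

noncomputable section

namespace Pool.Agent.Rank22

open Polynomial

/-- Products of powers of the seven numbers `qq j`. -/
def IsProd (c : ℤ) : Prop := ∃ e : Fin 7 → ℕ, c = ∏ j, qq j ^ e j

theorem IsProd.mul {c d : ℤ} (hc : IsProd c) (hd : IsProd d) : IsProd (c * d) := by
  obtain ⟨e, rfl⟩ := hc
  obtain ⟨e', rfl⟩ := hd
  refine ⟨fun j => e j + e' j, ?_⟩
  rw [← Finset.prod_mul_distrib]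
  exact Finset.prod_congr rfl fun j _ => (pow_add _ _ _).symm

theorem isProd_qq (j : Fin 7) : IsProd (qq j) := by
  refine ⟨fun i => if i = j then 1 else 0, ?_⟩
  rw [Finset.prod_eq_single j]
  · simp
  · intro i _ hi
    simp [hi]
  · intro h
    exact absurd (Finset.mem_univ j) h

theorem isProd_one : IsProd 1 := ⟨fun _ => 0, by simp⟩

theorem isProd_nat (n : ℕ) (hn : n ≠ 0)
    (h : ∀ p : ℕ, p.Prime → p ∣ n → p = 2 ∨ p = 5 ∨ p = 17 ∨ p = 19 ∨ p = 41 ∨ p = 73) :
    IsProd (n : ℤ) := by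
  induction n using Nat.recOnMul with
  | zero => exact absurd rfl hn
  | one => exact isProd_one
  | prime p hp =>
    rcases h p hp dvd_rfl with rfl | rfl | rfl | rfl | rfl | rfl
    · exact isProd_qq 1
    · exact isProd_qq 2
    · exact isProd_qq 3
    · exact isProd_qq 4
    · exact isProd_qq 5
    · exact isProd_qq 6
  | mul a b iha ihb =>
    push_cast
    exact (iha (left_ne_zero_of_mul hn) fun p hp hd => h p hp (hd.mul_right b)).mul
      (ihb (right_ne_zero_of_mul hn) fun p hp hd => h p hp (hd.mul_left a))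

theorem isProd_int (c : ℤ) (hc : c ≠ 0)
    (h : ∀ p : ℕ, p.Prime → (p : ℤ) ∣ c →
      p = 2 ∨ p = 5 ∨ p = 17 ∨ p = 19 ∨ p = 41 ∨ p = 73) : IsProd c := by
  have h1 := isProd_nat c.natAbs (Int.natAbs_ne_zero.2 hc) fun p hp hd =>
    h p hp (Int.natCast_dvd.2 hd)
  rcases Int.natAbs_eq c with h2 | h2
  · rw [h2]
    exact h1
  · rw [h2, ← neg_one_mul]
    exact (isProd_qq 0).mul h1

theorem table_prime : ∀ x ∈ table, x.p.Prime := by
  unfold table
  simp only [List.mem_cons, List.not_mem_nil, or_false, forall_eq_or_imp, forall_eq]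
  norm_num

theorem table_ne : ∀ x ∈ table, x.p ≠ 2 ∧ x.p ≠ 5 ∧ x.p ≠ 17 ∧ x.p ≠ 19 ∧ x.p ≠ 41 ∧ x.p ≠ 73 := by
  unfold table
  simp only [List.mem_cons, List.not_mem_nil, or_false, forall_eq_or_imp, forall_eq]
  norm_num

theorem Row.root {x : Row} (hx : x.ok = true) :
    (sexticZ.map (Int.castRingHom (ZMod x.p))).eval (x.t : ZMod x.p) = 0 := by
  unfold Row.ok at hx
  rw [Bool.and_eq_true, Bool.and_eq_true] at hx
  obtain ⟨⟨h, -⟩, -⟩ := hx
  rw [beq_iff_eq] at h
  have h1 := (ZMod.intCast_zmod_eq_zero_iff_dvd _ x.p).2 (Int.dvd_of_emod_eq_zero h)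
  rw [← h1]
  unfold sexticZ
  rw [poly7_map]
  unfold poly7
  simp only [eval_add, eval_mul, eval_C, eval_X, eval_pow, eq_intCast]
  push_cast
  ring

theorem rows_of_int {e : Fin 7 → ℕ} {a : Fin 22 → ℕ} {A B : ℤ[X]} {c : ℤ}
    (h : IntSol sexticZ num den a A B c) (hc : c = ∏ j, qq j ^ e j) :
    ∀ r ∈ table.map Row.m, phi e a r = 0 := by
  intro r hr
  obtain ⟨x, hx, rfl⟩ := List.mem_map.1 hr
  have hok : x.ok = true := List.all_eq_true.1 table_ok x hx
  have hp := table_prime x hx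
  have hne := table_ne x hx
  have : Fact x.p.Prime := ⟨hp⟩
  have hnd := h.not_dvd hp (sexticZ_not_sq hp hne)
  obtain ⟨hq, hv⟩ := Row.ok_all hok
  have hv' : ∀ i : Fin 22, ((den i : ZMod x.p) * (x.t : ZMod x.p) - num i) ^ ((x.p - 1) / 2) =
      (-1) ^ (if x.m.testBit (7 + i) then 1 else 0) := by
    intro i
    rw [← bits_cast hp (hv i)]
    push_cast
    rfl
  have hhalf : (x.p - 1) / 2 ≠ 0 := by
    have := hp.two_le
    have := hne.1
    omega
  have h1 := h.root hp hne.1 hnd (x.t : ZMod x.p) (Row.root hok) fun i h0 => by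
    have h2 := hv' i
    rw [h0, zero_pow hhalf] at h2
    split_ifs at h2 <;> simp at h2
  rw [hc] at h1
  refine row_phi' hp hne.1 x.m (fun j => (qq j : ZMod x.p)) _ (fun j => bits_cast hp (hq j)) hv'
    e a ?_
  rw [← h1]
  push_cast
  rfl

theorem phi_inf (e : Fin 7 → ℕ) (a : Fin 22 → ℕ) (h : Even (∑ i, a i)) :
    phi e a 536870784 = 0 := by
  have h1 : ∀ j : Fin 7, Nat.testBit 536870784 j = false := by decide
  have h2 : ∀ i : Fin 22, Nat.testBit 536870784 (7 + i) = true := by decide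
  unfold phi
  simp only [h1, h2, if_true, Bool.false_eq_true, if_false, Finset.sum_const_zero, zero_add]
  have h3 := (ZMod.natCast_eq_zero_iff_even).2 h
  rw [Nat.cast_sum] at h3
  exact h3

theorem den_ne (i : Fin 22) : den i ≠ 0 := by
  revert i
  decide

theorem num_den (i : Fin 22) : IsCoprime (num i) (den i) := by
  rw [Int.isCoprime_iff_gcd_eq_one]
  revert i
  decide

/-- All multiplicities are even, and the constant is a square. -/
theorem even_of_sol {y : Fin 22 → ℚ} {a : Fin 22 → ℕ} {A B : ℚ[X]} {c : ℚ}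
    (h : Sol sexticQ absc y a A B c) : (∀ i, Even (a i)) ∧ ∃ s : ℚ, c = s ^ 2 := by
  obtain ⟨A', B', c', w, hw, hI, hc⟩ := Sol.exists_int (F := sexticZ) (r := num) (s := den)
    den_ne num_den h
  obtain ⟨e, he⟩ := isProd_int c' hI.c_ne fun p hp hd => by
    by_contra hn
    push Not at hn
    exact hI.not_dvd hp (sexticZ_not_sq hp hn) hd
  have hev : Even (∑ i, a i) :=
    h.even (by rw [sexticQ_natDegree]; decide) sexticQ_leadingCoeff
  obtain ⟨h1, h2⟩ := even_of_rows e a (by
    intro r hr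
    rcases List.mem_cons.1 hr with rfl | hr
    · exact phi_inf e a hev
    · exact rows_of_int hI he r hr)
  refine ⟨h2, ?_⟩
  choose e' he' using h1
  choose a' ha' using h2
  refine ⟨((∏ j, (qq j : ℚ) ^ e' j) * ∏ i, (den i : ℚ) ^ a' i) / w, ?_⟩
  rw [div_pow, eq_div_iff (pow_ne_zero 2 hw), mul_comm c, ← hc, he, mul_pow, ← Finset.prod_pow,
    ← Finset.prod_pow]
  push_cast
  congr 1
  · refine Finset.prod_congr rfl fun j _ => ?_
    rw [he' j, ← pow_mul]
    congr 1
    ring
  · refine Finset.prod_congr rfl fun i _ => ?_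
    rw [ha' i, ← pow_mul]
    congr 1
    ring

/-- The only solution is the trivial one. -/
theorem sol_zero {y : Fin 22 → ℚ} (hy : ∀ i, y i ≠ 0)
    (hyf : ∀ i, y i ^ 2 = sexticQ.eval (absc i)) {a : Fin 22 → ℕ} {A B : ℚ[X]} {c : ℚ}
    (h : Sol sexticQ absc y a A B c) : ∀ i, a i = 0 := by
  obtain ⟨n, hn⟩ : ∃ n, ∑ i, a i = n := ⟨_, rfl⟩
  induction n using Nat.strong_induction_on generalizing a A B c with
  | _ n ih =>
    obtain ⟨h1, s, hs⟩ := even_of_sol h
    choose a' ha' using h1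
    have ha : a = fun i => 2 * a' i := by
      funext i
      rw [ha' i]
      ring
    subst hs
    rw [ha] at h
    obtain ⟨A', B', c', h'⟩ := h.halve sexticQ_irreducible hy hyf
    by_cases h0 : ∑ i, a' i = 0
    · intro i
      have := (Finset.sum_eq_zero_iff.1 h0) i (Finset.mem_univ i)
      simp [ha' i, this]
    · have hlt : ∑ i, a' i < n := by
        rw [← hn, ha]
        simp only
        rw [← Finset.mul_sum]
        omega
      have h2 := ih _ hlt h' rfl
      intro i
      simp [ha' i, h2 i]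

end Pool.Agent.Rank22
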