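import Mathlib

/-!
# Functions `A + B y` on the curve `y ^ 2 = f(x)` with zeros at given points

`Sol f x y a A B c`: the function `A + B y` has a zero of order `a i` at the point `(x i, y i)` for
all `i`, and no other zero at a finite point.
-/

set_option autoImplicit false

noncomputable section

namespace Pool.Agent.Rank22

open Polynomial

variable {K : Type*} [Field K] {ι : Type*} [Fintype ι]

/-- The norm of `A + B y` is `c` times the product of the powers `(X - x i) ^ a i`, and if
`a i ≠ 0`, then `A + B y` vanishes at the point `(x i, y i)` and is not divisible by `X - x i`. -/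
structure Sol (f : K[X]) (x y : ι → K) (a : ι → ℕ) (A B : K[X]) (c : K) : Prop where
  c_ne : c ≠ 0
  eq : A ^ 2 - f * B ^ 2 = C c * ∏ i, (X - C (x i)) ^ a i
  pt : ∀ i, a i ≠ 0 → A.eval (x i) + y i * B.eval (x i) = 0 ∧ B.eval (x i) ≠ 0

variable {f A B : K[X]} {x y : ι → K} {a : ι → ℕ} {c : K}

/-- The degree of the norm is even, if the leading coefficient of `f` is not a square. -/
theorem even_norm (hf : Even f.natDegree) (hlc : ¬ IsSquare f.leadingCoeff)
    (h0 : A ^ 2 - f * B ^ 2 ≠ 0) : Even (A ^ 2 - f * B ^ 2).natDegree := by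
  have hf0 : f ≠ 0 := by
    rintro rfl
    exact hlc (by simp)
  by_cases hB : B = 0
  · subst hB
    simp [natDegree_pow]
  by_cases hA : A = 0
  · subst hA
    have : (0 ^ 2 - f * B ^ 2 : K[X]) = - (f * B ^ 2) := by ring
    rw [this, natDegree_neg, natDegree_mul hf0 (pow_ne_zero 2 hB), natDegree_pow]
    exact hf.add (even_two_mul _)
  have hB2 : f * B ^ 2 ≠ 0 := mul_ne_zero hf0 (pow_ne_zero 2 hB)
  have d1 : (A ^ 2).natDegree = 2 * A.natDegree := natDegree_pow _ _
  have d2 : (f * B ^ 2).natDegree = f.natDegree + 2 * B.natDegree := by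
    rw [natDegree_mul hf0 (pow_ne_zero 2 hB), natDegree_pow]
  rcases lt_trichotomy (A ^ 2).natDegree (f * B ^ 2).natDegree with h | h | h
  · rw [natDegree_sub_eq_right_of_natDegree_lt h, d2]
    exact hf.add (even_two_mul _)
  · have hdeg : (A ^ 2 - f * B ^ 2).natDegree = (A ^ 2).natDegree := by
      apply le_antisymm
      · refine (natDegree_sub_le _ _).trans ?_
        rw [h, max_self]
      · apply le_natDegree_of_ne_zero
        rw [coeff_sub, coeff_natDegree]
        conv_lhs => rw [h, coeff_natDegree]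
        rw [leadingCoeff_pow, leadingCoeff_mul, leadingCoeff_pow]
        intro h1
        apply hlc
        refine ⟨A.leadingCoeff / B.leadingCoeff, ?_⟩
        have hb : B.leadingCoeff ≠ 0 := leadingCoeff_ne_zero.2 hB
        field_simp
        linear_combination -h1
    rw [hdeg, d1]
    exact even_two_mul _
  · rw [natDegree_sub_eq_left_of_natDegree_lt h, d1]
    exact even_two_mul _

theorem natDegree_prod_pow (x : ι → K) (a : ι → ℕ) :
    (∏ i, (X - C (x i)) ^ a i).natDegree = ∑ i, a i := by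
  rw [natDegree_prod_of_monic _ _ fun j _ => (monic_X_sub_C (x j)).pow _]
  simp [natDegree_pow]

theorem prod_pow_ne (x : ι → K) (a : ι → ℕ) : (∏ i, (X - C (x i)) ^ a i) ≠ 0 :=
  Finset.prod_ne_zero_iff.2 fun i _ => pow_ne_zero _ (X_sub_C_ne_zero _)

theorem Sol.even (h : Sol f x y a A B c) (hf : Even f.natDegree)
    (hlc : ¬ IsSquare f.leadingCoeff) : Even (∑ i, a i) := by
  have h1 := even_norm (A := A) (B := B) hf hlc (by
    rw [h.eq]
    exact mul_ne_zero (C_ne_zero.2 h.c_ne) (prod_pow_ne x a))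
  rw [h.eq, natDegree_C_mul h.c_ne, natDegree_prod_pow] at h1
  exact h1

theorem Sol.scale (h : Sol f x y a A B c) {u : K} (hu : u ≠ 0) :
    Sol f x y a (C u * A) (C u * B) (u ^ 2 * c) where
  c_ne := mul_ne_zero (pow_ne_zero 2 hu) h.c_ne
  eq := by
    rw [C_mul, C_pow]
    linear_combination (C u) ^ 2 * h.eq
  pt i hi := by
    obtain ⟨h1, h2⟩ := h.pt i hi
    simp only [eval_mul, eval_C]
    exact ⟨by linear_combination u * h1, mul_ne_zero hu h2⟩

theorem Sol.coprime (h : Sol f x y a A B c) (hy : ∀ i, y i ≠ 0) (b : ι → ℕ)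
    (hb : ∀ i, b i ≠ 0 → a i ≠ 0) : IsCoprime A (∏ i, (X - C (x i)) ^ b i) := by
  apply IsCoprime.prod_right
  intro i _
  by_cases hi : b i = 0
  · rw [hi, pow_zero]
    exact isCoprime_one_right
  · apply IsCoprime.pow_right
    obtain ⟨h1, h2⟩ := h.pt i (hb i hi)
    have h3 : A.eval (x i) ≠ 0 := by
      intro h4
      rw [h4, zero_add] at h1
      exact (mul_ne_zero (hy i) h2) h1
    refine (IsCoprime.symm ?_)
    refine (irreducible_X_sub_C (x i)).coprime_iff_not_dvd.2 ?_
    rw [dvd_iff_isRoot]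
    exact h3

/-- A square, up to a constant. -/
theorem sq_of_coprime {P Q R : K[X]} (h : IsCoprime P Q) (h2 : P * Q = R ^ 2) (hR : R ≠ 0) :
    ∃ (u : K) (V : K[X]), u ≠ 0 ∧ V ≠ 0 ∧ P = C u * V ^ 2 := by
  classical
  let _ : GCDMonoid K[X] := UniqueFactorizationMonoid.toGCDMonoid K[X]
  obtain ⟨V, hV⟩ := exists_associated_pow_of_mul_eq_pow' h h2
  obtain ⟨w, hw⟩ := hV
  obtain ⟨u, hu, hu2⟩ := Polynomial.isUnit_iff.1 w.isUnit
  have hP : P = C u * V ^ 2 := by rw [hu2, ← hw]; ring
  have hP0 : P ≠ 0 := by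
    rintro rfl
    rw [zero_mul] at h2
    exact hR (by simpa using h2.symm)
  refine ⟨u, V, hu.ne_zero, ?_, hP⟩
  rintro rfl
  exact hP0 (by rw [hP]; simp)

/-- Halving: a solution for `2 a` is the square of a solution for `a`. -/
theorem Sol.halve [CharZero K] (hirr : Irreducible f) (hy : ∀ i, y i ≠ 0)
    (hyf : ∀ i, y i ^ 2 = f.eval (x i)) {s : K}
    (h : Sol f x y (fun i => 2 * a i) A B (s ^ 2)) :
    ∃ A' B' c', Sol f x y a A' B' c' := by
  by_cases ha : ∀ i, a i = 0
  · refine ⟨1, 0, 1, one_ne_zero, ?_, fun i hi => absurd (ha i) hi⟩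
    simp [ha]
  push Not at ha
  obtain ⟨j, hj⟩ := ha
  have hB0 : B ≠ 0 := by
    rintro rfl
    exact (h.pt j (by positivity)).2 (by simp)
  have hs : s ≠ 0 := by
    rintro rfl
    exact h.c_ne (by simp)
  set M : K[X] := ∏ i, (X - C (x i)) ^ a i with hM
  have hM2 : ∏ i, (X - C (x i)) ^ (2 * a i) = M ^ 2 := by
    rw [hM, ← Finset.prod_pow]
    exact Finset.prod_congr rfl fun i _ => by rw [mul_comm, pow_mul]
  have heq : A ^ 2 - f * B ^ 2 = C s ^ 2 * M ^ 2 := by rw [h.eq, hM2, C_pow]
  have hcop : IsCoprime A M := h.coprime hy a fun i hi => by positivity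
  -- the sign of `s`
  have key : ∀ s : K, s ≠ 0 → A ^ 2 - f * B ^ 2 = C s ^ 2 * M ^ 2 → f ∣ A + C s * M →
      ∃ A' B' c', Sol f x y a A' B' c' := by
    intro s hs heq hdvd
    obtain ⟨W, hW⟩ := hdvd
    have h1 : (A - C s * M) * W = B ^ 2 := by
      apply mul_left_cancel₀ hirr.ne_zero
      calc f * ((A - C s * M) * W) = (A - C s * M) * (f * W) := by ring
        _ = (A - C s * M) * (A + C s * M) := by rw [hW]
        _ = f * B ^ 2 := by linear_combination heq
    have hcop2 : IsCoprime (A - C s * M) (A + C s * M) := by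
      obtain ⟨u, v, huv⟩ := hcop
      have e2 : (C (2⁻¹ : K) : K[X]) * 2 = 1 := by
        rw [show (2 : K[X]) = C 2 from rfl, ← C_mul]
        simp
      have es : (C (s⁻¹) : K[X]) * C s = 1 := by
        rw [← C_mul, inv_mul_cancel₀ hs, C_1]
      refine ⟨C 2⁻¹ * (u - C s⁻¹ * v), C 2⁻¹ * (u + C s⁻¹ * v), ?_⟩
      linear_combination huv + (u * A + C s⁻¹ * C s * v * M) * e2 + v * M * es
    have hcop3 : IsCoprime (A - C s * M) W := by
      rw [hW] at hcop2
      exact hcop2.of_mul_right_right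
    obtain ⟨u, V₁, hu, hV₁, e1⟩ := sq_of_coprime hcop3 h1 hB0
    obtain ⟨u', V₂, hu', hV₂, e3⟩ := sq_of_coprime hcop3.symm (by rw [mul_comm]; exact h1) hB0
    -- `u u'` is a square
    have h4 : B ^ 2 = C (u * u') * (V₁ * V₂) ^ 2 := by
      rw [← h1, e1, e3, C_mul]
      ring
    have h5 : B.leadingCoeff ^ 2 = u * u' * (V₁ * V₂).leadingCoeff ^ 2 := by
      have := congrArg leadingCoeff h4
      rwa [leadingCoeff_pow, leadingCoeff_mul, leadingCoeff_C, leadingCoeff_pow] at this
    have hl : (V₁ * V₂).leadingCoeff ≠ 0 := leadingCoeff_ne_zero.2 (mul_ne_zero hV₁ hV₂)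
    obtain ⟨κ, hκ, hκ2⟩ : ∃ κ : K, κ ^ 2 = u * u' ∧ B = C κ * (V₁ * V₂) := by
      set κ : K := B.leadingCoeff / (V₁ * V₂).leadingCoeff with hκ
      have h6 : κ ^ 2 = u * u' := by
        rw [hκ, div_pow, h5]
        field_simp
      have h7 : B ^ 2 = (C κ * (V₁ * V₂)) ^ 2 := by
        rw [h4, ← h6, C_pow]
        ring
      rcases sq_eq_sq_iff_eq_or_eq_neg.1 h7 with h8 | h8
      · exact ⟨κ, h6, h8⟩
      · exact ⟨-κ, by rw [neg_sq, h6], by rw [h8, C_neg]; ring⟩
    -- the square root
    set U : K[X] := V₁ with hU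
    set V : K[X] := C (κ / u) * V₂ with hV
    have eB : B = C u * (U * V) := by
      rw [hκ2, hV]
      rw [show (C u : K[X]) * (U * (C (κ / u) * V₂)) = C u * C (κ / u) * (U * V₂) by ring, ← C_mul,
        mul_div_cancel₀ _ hu]
    have e5 : C u * V ^ 2 = C u' * V₂ ^ 2 := by
      rw [hV, mul_pow, ← C_pow, ← mul_assoc, ← C_mul]
      congr 2
      field_simp
      rw [hκ]
    have eA : 2 * A = C u * (U ^ 2 + f * V ^ 2) := by
      have h9 : 2 * A = (A - C s * M) + (A + C s * M) := by ring
      rw [h9, hW, e1, e3]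
      linear_combination -f * e5
    have eM : C u * (U ^ 2 - f * V ^ 2) = - (2 * (C s * M)) := by
      have h9 : -(2 * (C s * M)) = (A - C s * M) - (A + C s * M) := by ring
      rw [h9, hW, e1, e3]
      linear_combination -f * e5
    refine ⟨U, V, u⁻¹ * (-(2 * s)), ?_, ?_, ?_⟩
    · exact mul_ne_zero (inv_ne_zero hu) (neg_ne_zero.2 (mul_ne_zero two_ne_zero hs))
    · apply mul_left_cancel₀ (C_ne_zero.2 hu)
      have e7 : (C u : K[X]) * C u⁻¹ = 1 := by
        rw [← C_mul, mul_inv_cancel₀ hu, C_1]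
      rw [eM, ← hM]
      simp only [C_neg, C_mul]
      rw [show (C (2 : K) : K[X]) = 2 from rfl]
      linear_combination 2 * C s * M * e7
    · intro i hi
      obtain ⟨h1, h2⟩ := h.pt i (by positivity)
      have b1 : B.eval (x i) = u * (U.eval (x i) * V.eval (x i)) := by
        rw [eB]
        simp
      have a1 : 2 * A.eval (x i) = u * (U.eval (x i) ^ 2 + y i ^ 2 * V.eval (x i) ^ 2) := by
        have := congrArg (eval (x i)) eA
        rw [hyf]
        simpa using this
      have m1 : U.eval (x i) ^ 2 - y i ^ 2 * V.eval (x i) ^ 2 = 0 := by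
        have := congrArg (eval (x i)) eM
        rw [hyf]
        have hM0 : M.eval (x i) = 0 := by
          rw [hM, eval_prod]
          exact Finset.prod_eq_zero (Finset.mem_univ i) (by simp [hi])
        simp [hM0, hu] at this
        linear_combination this
      have hV0 : V.eval (x i) ≠ 0 := by
        intro h0
        exact h2 (by rw [b1, h0]; ring)
      have hU0 : U.eval (x i) ≠ 0 := by
        intro h0
        exact h2 (by rw [b1, h0]; ring)
      refine ⟨?_, hV0⟩
      have h10 : 2 * u * U.eval (x i) * (U.eval (x i) + y i * V.eval (x i)) = 0 := by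
        linear_combination 2 * h1 - a1 - 2 * y i * b1 + u * m1
      rcases mul_eq_zero.1 h10 with h11 | h11
      · exact absurd h11 (mul_ne_zero (mul_ne_zero two_ne_zero hu) hU0)
      · exact h11
  have hprime : Prime f := hirr.prime
  have hd : f ∣ (A - C s * M) * (A + C s * M) := ⟨B ^ 2, by linear_combination heq⟩
  rcases hprime.dvd_or_dvd hd with h1 | h1
  · refine key (-s) (neg_ne_zero.2 hs) ?_ ?_
    · rw [heq, C_neg]
      ring
    · rw [C_neg, neg_mul, ← sub_eq_add_neg]
      exact h1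
  · exact key s hs heq h1

end Pool.Agent.Rank22
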