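import Pool.Agent.R22.Rel
import Pool.Agent.Rank22.Sol

/-!
# Functions with poles at infinity only
-/

set_option autoImplicit false

noncomputable section

namespace Pool.Agent.Rank22

open Pool.Agent.ZCyc Pool.Agent.Dess Pool.Agent.Dess4 Pool.Agent.FPZ Pool.Agent.R22 Polynomial
  IntermediateField Module
open scoped Classical

variable {k F : Type} [Field k] [IsAlgClosed k] [CharZero k] [Field F] [Algebra k F]
variable {f : k[X]} {x y : F}

omit [IsAlgClosed k] [CharZero k] in
/-- a rational function of `x` is a quotient of coprime polynomials -/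
theorem exists_ratio (hx : Transcendental k x) {r : F} (hr : r ∈ adjoin k {x}) :
    ∃ p q : k[X], IsCoprime p q ∧ q ≠ 0 ∧ r * aeval x q = aeval x p := by
  obtain ⟨s, hs⟩ := (RatFunc.algEquivOfTranscendental x hx).surjective ⟨r, hr⟩
  have hsr : r = aeval x s.num / aeval x s.denom := by
    have := RatFunc.algEquivOfTranscendental_apply x hx s
    rw [← this, hs]
  have hd0 : aeval x s.denom ≠ 0 := by
    intro h0
    exact s.denom_ne_zero ((transcendental_iff_injective.1 hx) (by rw [h0, map_zero]))
  refine ⟨s.num, s.denom, s.isCoprime_num_denom, s.denom_ne_zero, ?_⟩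
  rw [hsr]
  field_simp

/-- a rational function of `x` without finite poles is a polynomial -/
theorem poly_of_reg (hF : IsCurve k F) (hx : Transcendental k x) {r : F}
    (hr : r ∈ adjoin k {x}) (hreg : ∀ v : Place k F, x ∈ v.ring → r ∈ v.ring) :
    ∃ A : k[X], r = aeval x A := by
  obtain ⟨p, q, hpq, hq0, h1⟩ := exists_ratio hx hr
  have hq : IsUnit q := by
    by_contra hq
    have hdeg : q.degree ≠ 0 := fun h => hq (isUnit_iff_degree_eq_zero.2 h)
    obtain ⟨c, hc⟩ := IsAlgClosed.exists_root q hdeg
    obtain ⟨v, hv⟩ := exists_place hx c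
    obtain ⟨e, he⟩ := exists_at hF v (hreg v hv.mem)
    have h2 := he.mul (hv.aeval q)
    rw [h1, IsRoot.def.1 hc, mul_zero] at h2
    have h3 := (hv.aeval p).unique h2
    obtain ⟨a, b, hab⟩ := hpq
    have h4 := congrArg (eval c) hab
    rw [eval_add, eval_mul, eval_mul, h3, IsRoot.def.1 hc, mul_zero, mul_zero, add_zero,
      eval_one] at h4
    exact zero_ne_one h4
  obtain ⟨u, hu, rfl⟩ := Polynomial.isUnit_iff.1 hq
  refine ⟨C u⁻¹ * p, ?_⟩
  rw [map_mul, ← h1, aeval_C, aeval_C, mul_comm r, ← mul_assoc, ← map_mul,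
    inv_mul_cancel₀ hu.ne_zero, map_one, one_mul]

/-- the degree of a polynomial and its pole at infinity -/
theorem degree_of_inf (hx : Transcendental k x) {v : Place k F} (hv : x ∉ v.ring) {A : k[X]}
    {d : ℕ} (h : aeval x A / x ^ d ∈ v.ring) : A.natDegree ≤ d := by
  by_contra hcon
  push Not at hcon
  have hx0 := transc_ne hx
  have h1 := at_inf hx0 hv (p := A) (N := A.natDegree) le_rfl
  have hinv : v.Vanishes x⁻¹ := by
    rw [v.vanishes_iff_or, inv_inv]
    exact Or.inr hv
  obtain ⟨n, hn⟩ := Nat.exists_eq_add_of_lt hcon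
  have h2 : v.Vanishes (aeval x A / x ^ A.natDegree) := by
    have e : aeval x A / x ^ A.natDegree = (x⁻¹) ^ (n + 1) * (aeval x A / x ^ d) := by
      rw [hn, add_assoc, pow_add, inv_pow, div_eq_mul_inv, mul_inv, div_eq_mul_inv]
      ring
    rw [e]
    exact (hinv.pow v (Nat.succ_ne_zero n)).mul v h
  have h3 := h1.unique (Place.at_zero_iff.2 h2)
  have hA : A ≠ 0 := by
    rintro rfl
    simp at hcon
  exact (leadingCoeff_ne_zero.2 hA) h3

omit [IsAlgClosed k] [CharZero k] in
/-- every function is `a + b y` -/
theorem exists_ab (h : HypField f x y) (hy : y ∉ adjoin k {x}) (z : F) :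
    ∃ a ∈ adjoin k {x}, ∃ b ∈ adjoin k {x}, z = a + b * y := by
  have h2 := finrank_two h hy
  have hli : LinearIndependent (adjoin k {x}) ![(1 : F), y] := by
    rw [LinearIndependent.pair_iff]
    intro s t hst
    have ht : t = 0 := by
      by_contra ht
      apply hy
      have h3 : y = ((-s / t : adjoin k {x}) : F) := by
        have ht' : (t : F) ≠ 0 := fun h => ht (Subtype.ext h)
        rw [IntermediateField.smul_def, IntermediateField.smul_def, smul_eq_mul, smul_eq_mul,
          mul_one] at hst
        rw [IntermediateField.coe_div, IntermediateField.coe_neg, eq_div_iff ht']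
        linear_combination hst
      rw [h3]
      exact SetLike.coe_mem _
    refine ⟨?_, ht⟩
    rw [ht, zero_smul, add_zero, IntermediateField.smul_def, smul_eq_mul, mul_one] at hst
    exact Subtype.ext hst
  have hfd : FiniteDimensional (adjoin k {x}) F := by
    apply FiniteDimensional.of_finrank_pos
    rw [h2]
    exact two_pos
  have htop := hli.span_eq_top_of_card_eq_finrank' (by rw [h2]; rfl)
  have hz : z ∈ Submodule.span (adjoin k {x}) (Set.range ![(1 : F), y]) := by
    rw [htop]
    trivial
  rw [Matrix.range_cons, Matrix.range_cons, Matrix.range_empty, Set.union_empty,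
    Set.singleton_union, Submodule.mem_span_pair] at hz
  obtain ⟨a, b, hab⟩ := hz
  refine ⟨a, a.2, b, b.2, ?_⟩
  rw [← hab, IntermediateField.smul_def, IntermediateField.smul_def, smul_eq_mul, smul_eq_mul,
    mul_one]

omit [IsAlgClosed k] [CharZero k] in
/-- the rational functions of `x` are fixed by the involution -/
theorem fix_adj (hx : Transcendental k x) {σ : F ≃ₐ[k] F} (hσ : σ x = x) {r : F}
    (hr : r ∈ adjoin k {x}) : σ r = r := by
  obtain ⟨p, q, -, hq0, h1⟩ := exists_ratio hx hr
  have hp : ∀ p : k[X], σ (aeval x p) = aeval x p := by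
    intro p
    rw [← aeval_algHom_apply, hσ]
  have h2 := congrArg σ h1
  rw [map_mul, hp, hp, ← h1] at h2
  refine mul_right_cancel₀ ?_ h2
  intro h0
  exact hq0 ((transcendental_iff_injective.1 hx) (by rw [h0, map_zero]))

omit [IsAlgClosed k] [CharZero k] in
theorem aeval_ne (hx : Transcendental k x) {p : k[X]} (hp : p ≠ 0) : aeval x p ≠ 0 := by
  intro h0
  exact hp ((transcendental_iff_injective.1 hx) (by rw [h0, map_zero]))

/-- the order of a product -/
theorem ord_prod (hF : IsCurve k F) {ι : Type} (s : Finset ι)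
    (v : Place k F) {g : ι → F} {n : ι → ℤ} (h : ∀ i ∈ s, HasOrd v (g i) (n i)) :
    HasOrd v (∏ i ∈ s, g i) (∑ i ∈ s, n i) := by
  induction s using Finset.induction_on with
  | empty =>
    rw [Finset.prod_empty, Finset.sum_empty]
    exact ord_at hF ((at_one (k := k) v)) one_ne_zero
  | insert i s hi ih =>
    rw [Finset.prod_insert hi, Finset.sum_insert hi]
    exact ord_mul (h i (Finset.mem_insert_self i s))
      (ih fun j hj => h j (Finset.mem_insert_of_mem hj))

end Pool.Agent.Rank22
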