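import Pool.Agent.FPZ.AbCov1
import Pool.Agent.Rank22.Geo1

/-!
# Functions with poles at infinity only and given zeros
-/

set_option autoImplicit false

noncomputable section

namespace Pool.Agent.Rank22

open Pool.Agent.ZCyc Pool.Agent.Dess Pool.Agent.Dess4 Pool.Agent.FPZ Pool.Agent.R22 Polynomial
  IntermediateField Module
open scoped Classical

variable {k F : Type} [Field k] [IsAlgClosed k] [CharZero k] [Field F] [Algebra k F]
variable {f : k[X]} {x y : F} {ι : Type} [Fintype ι]

/-- The divisor of `∏ (x - x i) ^ m i` at the finite points. -/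
theorem ord_fin_prod (h : HypField f x y) (hy : y ∉ adjoin k {x}) {xi yi : ι → k}
    (hy0 : ∀ i, yi i ≠ 0) {P P' : ι → Place k F} (hP : ∀ i, (P i).At x (xi i))
    (hPy : ∀ i, (P i).At y (yi i)) (hP' : ∀ i, (P' i).At x (xi i))
    (hPy' : ∀ i, (P' i).At y (-yi i)) (m : ι → ℕ) {v : Place k F} (hv : x ∈ v.ring) :
    HasOrd v (∏ i, (x - algebraMap k F (xi i)) ^ m i)
      (∑ i, (Finsupp.single (P i) 1 + Finsupp.single (P' i) 1 : Place k F →₀ ℤ) v * m i) := by
  apply ord_prod h.curve
  intro i _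
  apply ord_pow
  obtain ⟨n, hn⟩ := exists_hasOrd h.curve v (transc_ne (transc_sub h.transc (xi i)))
  have := ord_fin_sub h hy (hy0 i) (hP i) (hPy i) (hP' i) (hPy' i) hv hn
  rw [← this]
  exact hn

/-- The divisor of `∏ (x - x i) ^ m i` at infinity. -/
theorem ord_inf_prod (h : HypField f x y) (xi : ι → k) (m : ι → ℕ) {v : Place k F}
    (hv : x ∉ v.ring) :
    HasOrd v ((∏ i, (x - algebraMap k F (xi i)) ^ m i) / x ^ ∑ i, m i) 0 := by
  have e : (∏ i, (x - algebraMap k F (xi i)) ^ m i) / x ^ ∑ i, m i =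
      ∏ i, ((x - algebraMap k F (xi i)) / x) ^ m i := by
    rw [← Finset.prod_pow_eq_pow_sum, ← Finset.prod_div_distrib]
    exact Finset.prod_congr rfl fun i _ => (div_pow _ _ _).symm
  rw [e]
  have h1 := ord_prod h.curve (n := fun i => 0 * (m i : ℤ)) Finset.univ v (fun i _ =>
    ord_pow (ord_inf_sub h hv (xi i)) (m i))
  simpa using h1

omit [IsAlgClosed k] [CharZero k] in
/-- the values of a sum of points -/
theorem sum_apply (P : ι → Place k F) (n : ι → ℤ) (v : Place k F) :
    (∑ i, Finsupp.single (P i) (n i) : Place k F →₀ ℤ) v = ∑ i, if P i = v then n i else 0 := by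
  rw [Finsupp.finsetSum_apply]
  exact Finset.sum_congr rfl fun i _ => Finsupp.single_apply

/-- A function with the divisor `∑ m i (P i - i P i)`. -/
theorem geo_nat (h : HypField f x y) (hsep : f.Separable) (hdeg : f.natDegree = 6)
    {xi yi : ι → k} (hinj : Function.Injective xi)
    (hy0 : ∀ i, yi i ≠ 0) {P P' : ι → Place k F} (hP : ∀ i, (P i).At x (xi i))
    (hPy : ∀ i, (P i).At y (yi i)) (hP' : ∀ i, (P' i).At x (xi i))
    (hPy' : ∀ i, (P' i).At y (-yi i)) (m : ι → ℕ) {g : F} (hg0 : g ≠ 0)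
    (hg : ∀ v, HasOrd v g ((∑ i, Finsupp.single (P i) (m i : ℤ) -
      ∑ i, Finsupp.single (P' i) (m i : ℤ) : Place k F →₀ ℤ) v)) :
    ∃ A B c, Sol f xi yi (fun i => 2 * m i) A B c ∧ A.natDegree ≤ ∑ i, m i ∧
      (B = 0 ∨ B.natDegree + 3 ≤ ∑ i, m i) := by
  have hF := h.curve
  have hx := h.transc
  have hx0 := transc_ne hx
  have hyn : y ∉ adjoin k {x} := notMem h hsep (by omega)
  obtain ⟨σ, hσx, hσy⟩ := invol h hyn
  set d := ∑ i, m i with hd
  -- the function with poles at infinity only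
  set w : F := ∏ i, (x - algebraMap k F (xi i)) ^ m i with hw
  have hw0 : w ≠ 0 := Finset.prod_ne_zero_iff.2 fun i _ =>
    pow_ne_zero _ (transc_ne (transc_sub hx (xi i)))
  set z : F := g * w with hz
  have hz0 : z ≠ 0 := mul_ne_zero hg0 hw0
  have hPfin : ∀ i, x ∈ (P i).ring := fun i => (hP i).mem
  have hPfin' : ∀ i, x ∈ (P' i).ring := fun i => (hP' i).mem
  have hPinj : ∀ i j, P i = P j → i = j := fun i j hij => hinj
    ((hP i).unique (by rw [hij]; exact hP j))
  have hPP' : ∀ i j, P i ≠ P' j := by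
    intro i j hij
    have h1 : xi i = xi j := (hP i).unique (by rw [hij]; exact hP' j)
    have h2 : i = j := hinj h1
    subst h2
    exact at_ne (hy0 i) (hPy i) (hPy' i) hij
  have O1 : ∀ v : Place k F, x ∈ v.ring →
      HasOrd v z ((∑ i, Finsupp.single (P i) (2 * m i : ℤ) : Place k F →₀ ℤ) v) := by
    intro v hv
    have h1 := ord_mul (hg v) (ord_fin_prod h hyn hy0 hP hPy hP' hPy' m hv)
    convert h1 using 1
    rw [Finsupp.sub_apply, sum_apply, sum_apply, sum_apply, ← Finset.sum_sub_distrib,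
      ← Finset.sum_add_distrib]
    refine Finset.sum_congr rfl fun i _ => ?_
    rw [Finsupp.add_apply, Finsupp.single_apply, Finsupp.single_apply]
    split_ifs <;> ring
  have O2 : ∀ v : Place k F, x ∉ v.ring → HasOrd v (z / x ^ d) 0 := by
    intro v hv
    have hgv : HasOrd v g 0 := by
      have h1 := hg v
      rw [Finsupp.sub_apply, sum_apply, sum_apply,
        Finset.sum_eq_zero (fun i _ => if_neg (fun hi => hv (by rw [← hi]; exact hPfin i))),
        Finset.sum_eq_zero (fun i _ => if_neg (fun hi => hv (by rw [← hi]; exact hPfin' i))),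
        sub_zero] at h1
      exact h1
    have h2 := ord_mul hgv (ord_inf_prod h xi m hv)
    rw [add_zero, ← mul_div_assoc] at h2
    exact h2
  -- the conjugate function
  have hσσ : ∀ v : Place k F, ((v.map σ.symm).map σ) = v := by
    intro v
    rw [Place.map_map]
    have : σ.symm.trans σ = 1 := by
      ext u
      simp
    rw [this, Place.map_one]
  have hconj : ∀ (v : Place k F) (i : ι), P i = v.map σ.symm ↔ P' i = v := by
    intro v i
    have h1 : (P i).map σ = P' i := by
      obtain ⟨h2, h3⟩ := map_at hσx hσy (hP i) (hPy i)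
      exact place_eq h hyn (neg_ne_zero.2 (hy0 i)) h2 h3 (hP' i) (hPy' i)
    constructor
    · intro h2
      rw [← h1, h2, hσσ]
    · intro h2
      rw [← h2, ← h1, Place.map_map]
      have : σ.trans σ.symm = 1 := by
        ext u
        simp
      rw [this, Place.map_one]
  have hmem : ∀ v : Place k F, x ∈ (v.map σ.symm).ring ↔ x ∈ v.ring := by
    intro v
    rw [Place.mem_map, AlgEquiv.symm_symm, hσx]
  have O3 : ∀ v : Place k F, x ∈ v.ring →
      HasOrd v (σ z) ((∑ i, Finsupp.single (P' i) (2 * m i : ℤ) : Place k F →₀ ℤ) v) := by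
    intro v hv
    have h1 := ord_map σ (O1 (v.map σ.symm) ((hmem v).2 hv))
    rw [hσσ] at h1
    convert h1 using 1
    rw [sum_apply, sum_apply]
    exact Finset.sum_congr rfl fun i _ => by simp only [hconj v i]
  have O4 : ∀ v : Place k F, x ∉ v.ring → HasOrd v (σ z / x ^ d) 0 := by
    intro v hv
    have h1 := ord_map σ (O2 (v.map σ.symm) fun h2 => hv ((hmem v).1 h2))
    rw [hσσ, map_div₀, map_pow, hσx] at h1
    exact h1
  have hnn : ∀ (Q : ι → Place k F) (v : Place k F),
      0 ≤ (∑ i, Finsupp.single (Q i) (2 * m i : ℤ) : Place k F →₀ ℤ) v := by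
    intro Q v
    rw [sum_apply]
    refine Finset.sum_nonneg fun i _ => ?_
    split_ifs
    · positivity
    · exact le_rfl
  -- the coordinates
  obtain ⟨a, ha, b, hb, hab⟩ := exists_ab h hyn z
  have hσz : σ z = a - b * y := by
    rw [hab, map_add, map_mul, fix_adj hx hσx ha, fix_adj hx hσx hb, hσy]
    ring
  have ha2 : a = (z + σ z) * algebraMap k F 2⁻¹ := by
    have h2 : (2 : F) * algebraMap k F 2⁻¹ = 1 := by
      rw [show (2 : F) = algebraMap k F 2 from (map_ofNat _ 2).symm, ← map_mul,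
        mul_inv_cancel₀ two_ne_zero, map_one]
    rw [hσz, hab]
    linear_combination -a * h2
  have hby : b * y = (z - σ z) * algebraMap k F 2⁻¹ := by
    have h2 : (2 : F) * algebraMap k F 2⁻¹ = 1 := by
      rw [show (2 : F) = algebraMap k F 2 from (map_ofNat _ 2).symm, ← map_mul,
        mul_inv_cancel₀ two_ne_zero, map_one]
    rw [hσz, hab]
    linear_combination -(b * y) * h2
  obtain ⟨A, hA⟩ := poly_of_reg hF hx ha (fun v hv => by
    rw [ha2]
    exact mul_mem (add_mem (ord_mem (O1 v hv) (hnn _ _)) (ord_mem (O3 v hv) (hnn _ _)))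
      (v.const_mem _))
  obtain ⟨G, hG⟩ := poly_of_reg hF hx (r := b ^ 2 * aeval x f)
    (mul_mem (pow_mem hb 2) (aeval_mem_adj f x)) (fun v hv => by
      have h1 : b ^ 2 * aeval x f = (b * y) ^ 2 := by rw [mul_pow, h.eq]
      rw [h1, hby]
      exact pow_mem (mul_mem (sub_mem (ord_mem (O1 v hv) (hnn _ _))
        (ord_mem (O3 v hv) (hnn _ _))) (v.const_mem _)) 2)
  obtain ⟨B, hB⟩ : ∃ B : k[X], b = aeval x B := by
    obtain ⟨p, q, hpq, hq0, h1⟩ := exists_ratio hx hb
    have h2 : p ^ 2 * f = G * q ^ 2 := by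
      apply transcendental_iff_injective.1 hx
      rw [map_mul, map_mul, map_pow, map_pow, ← h1, ← hG]
      ring
    have h3 : q * q ∣ f := by
      have h4 : q ^ 2 ∣ p ^ 2 * f := ⟨G, by rw [h2]; ring⟩
      rw [← sq]
      exact (hpq.symm.pow (m := 2) (n := 2)).dvd_of_dvd_mul_left h4
    obtain ⟨u, hu, rfl⟩ := Polynomial.isUnit_iff.1 (hsep.squarefree q h3)
    refine ⟨C u⁻¹ * p, ?_⟩
    rw [map_mul, ← h1, aeval_C, aeval_C, mul_comm b, ← mul_assoc, ← map_mul,
      inv_mul_cancel₀ hu.ne_zero, map_one, one_mul]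
  have hGB : B ^ 2 * f = G := by
    apply transcendental_iff_injective.1 hx
    rw [map_mul, map_pow, ← hB, hG]
  -- degrees
  obtain ⟨o, ho⟩ := h.exists_inf
  have hzo := ord_mem (O2 o ho) le_rfl
  have hzo' := ord_mem (O4 o ho) le_rfl
  have dA : A.natDegree ≤ d := by
    apply degree_of_inf hx ho
    rw [← hA, ha2]
    have e : (z + σ z) * algebraMap k F 2⁻¹ / x ^ d =
        (z / x ^ d + σ z / x ^ d) * algebraMap k F 2⁻¹ := by ring
    rw [e]
    exact mul_mem (add_mem hzo hzo') (o.const_mem _)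
  have dG : G.natDegree ≤ 2 * d := by
    apply degree_of_inf hx ho
    have h1 : b ^ 2 * aeval x f = (b * y) ^ 2 := by rw [mul_pow, h.eq]
    rw [← hG, h1, hby]
    have e : ((z - σ z) * algebraMap k F 2⁻¹) ^ 2 / x ^ (2 * d) =
        ((z / x ^ d - σ z / x ^ d) * algebraMap k F 2⁻¹) ^ 2 := by
      rw [mul_comm 2 d, pow_mul]
      have := pow_ne_zero d hx0
      field_simp
    rw [e]
    exact pow_mem (mul_mem (sub_mem hzo hzo') (o.const_mem _)) 2
  have dB : B = 0 ∨ B.natDegree + 3 ≤ d := by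
    by_cases hB0 : B = 0
    · exact Or.inl hB0
    · right
      have hf0 : f ≠ 0 := by
        rintro rfl
        simp at hdeg
      rw [← hGB, natDegree_mul (pow_ne_zero 2 hB0) hf0, natDegree_pow, hdeg] at dG
      omega
  -- the norm
  set M : k[X] := ∏ i, (X - C (xi i)) ^ (2 * m i) with hM
  have hMx : aeval x M = ∏ i, (x - algebraMap k F (xi i)) ^ (2 * m i) := by
    rw [hM, map_prod]
    exact Finset.prod_congr rfl fun i _ => by rw [map_pow, map_sub, aeval_X, aeval_C]
  have hNx : aeval x (A ^ 2 - f * B ^ 2) = z * σ z := by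
    rw [map_sub, map_pow, map_mul, map_pow, ← hA, ← hB, ← h.eq, hσz, hab]
    ring
  have hM0 : aeval x M ≠ 0 := aeval_ne hx (prod_pow_ne xi _)
  have hσz0 : σ z ≠ 0 := (map_ne_zero_iff σ σ.injective).2 hz0
  obtain ⟨c, hc⟩ := deg_const hF (f := z * σ z / aeval x M) (fun v => by
    by_cases hv : x ∈ v.ring
    · have h1 := ord_mul (O1 v hv) (O3 v hv)
      have h2 := ord_fin_prod h hyn hy0 hP hPy hP' hPy' (fun i => 2 * m i) hv
      rw [← hMx] at h2
      have h3 := ord_mul h1 (hasOrd_inv h2)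
      rw [← div_eq_mul_inv] at h3
      refine ord_mem h3 (le_of_eq ?_)
      rw [sum_apply, sum_apply, ← Finset.sum_add_distrib, ← sub_eq_add_neg,
        ← Finset.sum_sub_distrib]
      symm
      refine Finset.sum_eq_zero fun i _ => ?_
      rw [Finsupp.add_apply, Finsupp.single_apply, Finsupp.single_apply]
      push_cast
      split_ifs <;> ring
    · have h1 := ord_mul (O2 v hv) (O4 v hv)
      have h2 := ord_inf_prod h xi (fun i => 2 * m i) hv
      rw [← hMx, ← Finset.mul_sum, ← hd] at h2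
      have h3 := ord_mul h1 (hasOrd_inv h2)
      have e : z / x ^ d * (σ z / x ^ d) * (aeval x M / x ^ (2 * d))⁻¹ =
          z * σ z / aeval x M := by
        rw [two_mul, pow_add]
        have := pow_ne_zero d hx0
        field_simp
      rw [e] at h3
      exact ord_mem h3 (by norm_num))
  have hc0 : c ≠ 0 := by
    rintro rfl
    rw [map_zero, div_eq_zero_iff] at hc
    rcases hc with h1 | h1
    · exact mul_ne_zero hz0 hσz0 h1
    · exact hM0 h1
  have hN : A ^ 2 - f * B ^ 2 = C c * M := by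
    apply transcendental_iff_injective.1 hx
    rw [hNx, map_mul (aeval x), aeval_C, ← hc, div_mul_cancel₀ _ hM0]
  refine ⟨A, B, c, ⟨hc0, hN, fun i hi => ?_⟩, dA, dB⟩
  have hmi : m i ≠ 0 := fun h1 => hi (by rw [h1])
  have hval : ∀ {v : Place k F} {s : k}, v.At x (xi i) → v.At y s →
      v.At z (A.eval (xi i) + B.eval (xi i) * s) := by
    intro v s h1 h2
    rw [hab, hA, hB]
    exact (h1.aeval A).add ((h1.aeval B).mul h2)
  have h1 : (P i).Vanishes z := by
    apply ord_vanishes (O1 (P i) (hPfin i))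
    rw [sum_apply, Finset.sum_eq_single i]
    · rw [if_pos rfl]
      positivity
    · intro j _ hji
      exact if_neg fun h2 => hji (hPinj j i h2)
    · intro h2
      exact absurd (Finset.mem_univ i) h2
  have h2 := (hval (hP i) (hPy i)).unique (Place.at_zero_iff.2 h1)
  refine ⟨by rw [← h2]; ring, ?_⟩
  intro hB0
  rw [hB0, zero_mul, add_zero] at h2
  have h3 := hval (hP' i) (hPy' i)
  rw [hB0, h2, zero_mul, add_zero] at h3
  have h4 := ord_pos (O1 (P' i) (hPfin' i)) hz0 (Place.at_zero_iff.1 h3)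
  rw [sum_apply, Finset.sum_eq_zero (fun j _ => if_neg (hPP' j i))] at h4
  exact lt_irrefl 0 h4

/-- A function with the divisor `∑ n i (P i - i P i)`. -/
theorem geo (h : HypField f x y) (hsep : f.Separable) (hdeg : f.natDegree = 6)
    {xi yi : ι → k} (hinj : Function.Injective xi)
    (hy0 : ∀ i, yi i ≠ 0) {P P' : ι → Place k F} (hP : ∀ i, (P i).At x (xi i))
    (hPy : ∀ i, (P i).At y (yi i)) (hP' : ∀ i, (P' i).At x (xi i))
    (hPy' : ∀ i, (P' i).At y (-yi i)) (n : ι → ℤ) {g : F} (hg0 : g ≠ 0)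
    (hg : ∀ v, HasOrd v g ((∑ i, n i • (Finsupp.single (P i) 1 - Finsupp.single (P' i) 1) :
      Place k F →₀ ℤ) v)) :
    ∃ A B c, Sol f xi (fun i => if 0 ≤ n i then yi i else -yi i)
      (fun i => 2 * (n i).natAbs) A B c ∧ A.natDegree ≤ ∑ i, (n i).natAbs ∧
      (B = 0 ∨ B.natDegree + 3 ≤ ∑ i, (n i).natAbs) := by
  refine geo_nat h hsep hdeg hinj (P := fun i => if 0 ≤ n i then P i else P' i)
    (P' := fun i => if 0 ≤ n i then P' i else P i) (fun i => ?_) (fun i => ?_) (fun i => ?_)
    (fun i => ?_) (fun i => ?_) (fun i => (n i).natAbs) hg0 (fun v => ?_)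
  · split_ifs
    · exact hy0 i
    · exact neg_ne_zero.2 (hy0 i)
  · split_ifs
    · exact hP i
    · exact hP' i
  · split_ifs
    · exact hPy i
    · exact hPy' i
  · split_ifs
    · exact hP' i
    · exact hP i
  · split_ifs
    · exact hPy' i
    · rw [neg_neg]
      exact hPy i
  · convert hg v using 3
    rw [← Finset.sum_sub_distrib]
    refine Finset.sum_congr rfl fun i _ => ?_
    split_ifs with h0
    · rw [Int.natAbs_of_nonneg h0, smul_sub, Finsupp.smul_single, Finsupp.smul_single,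
        smul_eq_mul, mul_one]
    · have h1 : ((n i).natAbs : ℤ) = - n i := by
        rw [← Int.natAbs_neg]
        exact Int.natAbs_of_nonneg (by omega)
      rw [h1, smul_sub, Finsupp.smul_single, Finsupp.smul_single, smul_eq_mul, mul_one,
        Finsupp.single_neg, Finsupp.single_neg]
      abel

end Pool.Agent.Rank22
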