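import Pool.Agent.Dess.Alg
import Pool.Agent.Rank22.Sol

/-!
# Solutions over the algebraic numbers are rational, up to a constant
-/

set_option autoImplicit false

noncomputable section

namespace Pool.Agent.Rank22

open Pool.Agent.Dess Polynomial

section Unique

variable {K : Type*} [Field K] [CharZero K] {ι : Type*} [Fintype ι]
variable {f : K[X]} {x y : ι → K} {a : ι → ℕ} {A B A₂ B₂ : K[X]} {c c₂ : K} {d : ℕ}

/-- two solutions are proportional -/
theorem Sol.cross (h : Sol f x y a A B c) (h₂ : Sol f x y a A₂ B₂ c₂) (hy : ∀ i, y i ≠ 0)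
    (hd : ∑ i, a i = 2 * d) (hA : A.natDegree ≤ d)
    (hB : B.natDegree + 3 ≤ d) (hA₂ : A₂.natDegree ≤ d) (hB₂ : B₂.natDegree + 3 ≤ d) :
    B * A₂ = A * B₂ := by
  set M : K[X] := ∏ i, (X - C (x i)) ^ a i with hM
  have h1 : M ∣ (B * A₂ - A * B₂) * (B * A₂ + A * B₂) := by
    refine ⟨C c₂ * B ^ 2 - C c * B₂ ^ 2, ?_⟩
    linear_combination B ^ 2 * h₂.eq - B₂ ^ 2 * h.eq
  have h2 : IsCoprime M (B * A₂ + A * B₂) := by
    apply IsCoprime.prod_left
    intro i _
    by_cases hi : a i = 0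
    · rw [hi, pow_zero]
      exact isCoprime_one_left
    · apply IsCoprime.pow_left
      obtain ⟨h3, h4⟩ := h.pt i hi
      obtain ⟨h5, h6⟩ := h₂.pt i hi
      refine (irreducible_X_sub_C (x i)).coprime_iff_not_dvd.2 ?_
      rw [dvd_iff_isRoot, IsRoot.def, eval_add, eval_mul, eval_mul]
      intro h7
      have h8 : 2 * (y i * (B.eval (x i) * B₂.eval (x i))) = 0 := by
        linear_combination B.eval (x i) * h5 + B₂.eval (x i) * h3 - h7
      exact (mul_ne_zero two_ne_zero (mul_ne_zero (hy i) (mul_ne_zero h4 h6))) h8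
  have h3 : M ∣ B * A₂ - A * B₂ := h2.dvd_of_dvd_mul_right h1
  rw [← sub_eq_zero]
  apply eq_zero_of_dvd_of_natDegree_lt h3
  rw [hM, natDegree_prod_pow, hd]
  have h4 : (B * A₂).natDegree + 3 ≤ 2 * d := by
    have := natDegree_mul_le (p := B) (q := A₂)
    omega
  have h5 : (A * B₂).natDegree + 3 ≤ 2 * d := by
    have := natDegree_mul_le (p := A) (q := B₂)
    omega
  have h6 := natDegree_sub_le (B * A₂) (A * B₂)
  have h7 : max (B * A₂).natDegree (A * B₂).natDegree + 3 ≤ 2 * d := by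
    rcases max_cases (B * A₂).natDegree (A * B₂).natDegree with ⟨h, -⟩ | ⟨h, -⟩ <;> rw [h] <;>
      assumption
  omega

omit [CharZero K] in
theorem Sol.coprime_AB (h : Sol f x y a A B c) (hy : ∀ i, y i ≠ 0) : IsCoprime A B := by
  obtain ⟨u, v, huv⟩ := h.coprime hy a fun i hi => hi
  have hc : (C c⁻¹ : K[X]) * C c = 1 := by
    rw [← C_mul, inv_mul_cancel₀ h.c_ne, C_1]
  refine ⟨u + v * C c⁻¹ * A, -(v * C c⁻¹ * f * B), ?_⟩
  linear_combination huv + v * C c⁻¹ * h.eq + v * (∏ i, (X - C (x i)) ^ a i) * hc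

/-- two solutions with `B` monic are equal -/
theorem Sol.unique (h : Sol f x y a A B c) (h₂ : Sol f x y a A₂ B₂ c₂) (hy : ∀ i, y i ≠ 0)
    (hd : ∑ i, a i = 2 * d) (hA : A.natDegree ≤ d)
    (hB : B.natDegree + 3 ≤ d) (hA₂ : A₂.natDegree ≤ d) (hB₂ : B₂.natDegree + 3 ≤ d)
    (hm : B.Monic) (hm₂ : B₂.Monic) : A₂ = A ∧ B₂ = B := by
  have h1 := h.cross h₂ hy hd hA hB hA₂ hB₂
  have h2 : B ∣ B₂ := (h.coprime_AB hy).symm.dvd_of_dvd_mul_left ⟨A₂, h1.symm⟩
  have h3 : B₂ ∣ B := (h₂.coprime_AB hy).symm.dvd_of_dvd_mul_left ⟨A, by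
    rw [mul_comm A₂, h1, mul_comm]⟩
  have h4 : B₂ = B := eq_of_monic_of_associated hm₂ hm (associated_of_dvd_dvd h3 h2)
  subst h4
  refine ⟨?_, rfl⟩
  apply mul_left_cancel₀ hm.ne_zero
  rw [h1, mul_comm]

end Unique

variable {ι : Type*} [Fintype ι]

/-- A polynomial over the algebraic numbers, all coefficients of which are fixed by the Galois
group, is rational. -/
theorem poly_fixed {p : QQ[X]} (h : ∀ τ : Gam, p.map (τ : QQ →+* QQ) = p) :
    ∃ q : ℚ[X], q.map (algebraMap ℚ QQ) = p := by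
  have h1 : p ∈ lifts (algebraMap ℚ QQ) := by
    rw [lifts_iff_coeff_lifts]
    intro n
    apply alg_fixed
    intro τ
    have := congrArg (fun q => coeff q n) (h τ)
    simpa using this
  exact (mem_lifts _).1 h1

/-- the conjugate of a solution -/
theorem Sol.conj {f : ℚ[X]} {x y : ι → ℚ} {a : ι → ℕ} {A B : QQ[X]} {c : QQ}
    (h : Sol (f.map (algebraMap ℚ QQ)) (fun i => algebraMap ℚ QQ (x i))
      (fun i => algebraMap ℚ QQ (y i)) a A B c) (τ : Gam) :
    Sol (f.map (algebraMap ℚ QQ)) (fun i => algebraMap ℚ QQ (x i))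
      (fun i => algebraMap ℚ QQ (y i)) a (A.map (τ : QQ →+* QQ)) (B.map (τ : QQ →+* QQ)) (τ c) := by
  have hτ : ∀ r : ℚ, (τ : QQ →+* QQ) (algebraMap ℚ QQ r) = algebraMap ℚ QQ r := fun r =>
    τ.commutes r
  have hcomp : (τ : QQ →+* QQ).comp (algebraMap ℚ QQ) = algebraMap ℚ QQ := RingHom.ext hτ
  have hev : ∀ (p : QQ[X]) (r : ℚ), (p.map (τ : QQ →+* QQ)).eval (algebraMap ℚ QQ r) =
      (τ : QQ →+* QQ) (p.eval (algebraMap ℚ QQ r)) := by
    intro p r
    conv_lhs => rw [← hτ r]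
    rw [eval_map_apply]
  refine ⟨(map_ne_zero_iff τ τ.injective).2 h.c_ne, ?_, fun i hi => ?_⟩
  · have h1 := congrArg (Polynomial.map (τ : QQ →+* QQ)) h.eq
    simp only [Polynomial.map_sub, Polynomial.map_mul, Polynomial.map_pow, Polynomial.map_prod,
      map_X, map_C, map_map, hcomp, hτ] at h1
    exact h1
  · obtain ⟨h1, h2⟩ := h.pt i hi
    rw [hev, hev]
    refine ⟨?_, (map_ne_zero_iff _ (τ : QQ →+* QQ).injective).2 h2⟩
    have h3 := congrArg (τ : QQ →+* QQ) h1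
    rw [map_add, map_mul, map_zero, hτ] at h3
    exact h3

/-- A solution over the algebraic numbers gives a solution over the rational numbers. -/
theorem sol_rat {f : ℚ[X]} {x y : ι → ℚ} {a : ι → ℕ} {A B : QQ[X]} {c : QQ} {d : ℕ}
    (h : Sol (f.map (algebraMap ℚ QQ)) (fun i => algebraMap ℚ QQ (x i))
      (fun i => algebraMap ℚ QQ (y i)) a A B c) (hy : ∀ i, y i ≠ 0)
    (hd : ∑ i, a i = 2 * d) (hA : A.natDegree ≤ d)
    (hB : B = 0 ∨ B.natDegree + 3 ≤ d) : ∃ A' B' c', Sol f x y a A' B' c' := by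
  by_cases ha : ∀ i, a i = 0
  · refine ⟨1, 0, 1, one_ne_zero, ?_, fun i hi => absurd (ha i) hi⟩
    simp [ha]
  push Not at ha
  obtain ⟨j, hj⟩ := ha
  have hB0 : B ≠ 0 := by
    rintro rfl
    exact (h.pt j hj).2 (by simp)
  replace hB := hB.resolve_left hB0
  have hinjQ : Function.Injective (algebraMap ℚ QQ) := (algebraMap ℚ QQ).injective
  have hy' : ∀ i, algebraMap ℚ QQ (y i) ≠ 0 := fun i =>
    (map_ne_zero_iff _ hinjQ).2 (hy i)
  -- `B` monic
  obtain ⟨A, B, c, h, hA, hB, hm⟩ : ∃ (A B : QQ[X]) (c : QQ),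
      Sol (f.map (algebraMap ℚ QQ)) (fun i => algebraMap ℚ QQ (x i))
        (fun i => algebraMap ℚ QQ (y i)) a A B c ∧ A.natDegree ≤ d ∧ B.natDegree + 3 ≤ d ∧
        B.Monic := by
    have hl : B.leadingCoeff ≠ 0 := leadingCoeff_ne_zero.2 hB0
    refine ⟨C B.leadingCoeff⁻¹ * A, C B.leadingCoeff⁻¹ * B, _, h.scale (inv_ne_zero hl), ?_, ?_,
      ?_⟩
    · exact (natDegree_C_mul_le _ _).trans hA
    · exact (Nat.add_le_add_right (natDegree_C_mul_le _ _) 3).trans hB
    · rw [Monic, leadingCoeff_mul, leadingCoeff_C, inv_mul_cancel₀ hl]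
  have hfix : ∀ τ : Gam, A.map (τ : QQ →+* QQ) = A ∧ B.map (τ : QQ →+* QQ) = B := by
    intro τ
    exact h.unique (h.conj τ) hy' hd hA hB (natDegree_map_le.trans hA)
      ((Nat.add_le_add_right natDegree_map_le 3).trans hB) hm (hm.map _)
  obtain ⟨A', rfl⟩ := poly_fixed fun τ => (hfix τ).1
  obtain ⟨B', rfl⟩ := poly_fixed fun τ => (hfix τ).2
  -- the constant
  set M : ℚ[X] := ∏ i, (X - C (x i)) ^ a i with hM
  have hMm : M.Monic := monic_prod_of_monic _ _ fun i _ => (monic_X_sub_C (x i)).pow _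
  have hMe : M.map (algebraMap ℚ QQ) = ∏ i, (X - C (algebraMap ℚ QQ (x i))) ^ a i := by
    rw [hM, Polynomial.map_prod]
    exact Finset.prod_congr rfl fun i _ => by
      rw [Polynomial.map_pow, Polynomial.map_sub, map_X, map_C]
  have h1 : (A' ^ 2 - f * B' ^ 2).map (algebraMap ℚ QQ) = C c * M.map (algebraMap ℚ QQ) := by
    rw [hMe, ← h.eq, Polynomial.map_sub, Polynomial.map_mul, Polynomial.map_pow,
      Polynomial.map_pow]
  set c' : ℚ := (A' ^ 2 - f * B' ^ 2).coeff M.natDegree with hc'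
  have h2 : algebraMap ℚ QQ c' = c := by
    have := congrArg (fun q => coeff q M.natDegree) h1
    simp only [coeff_map, coeff_C_mul, hMm.coeff_natDegree, map_one, mul_one] at this
    exact this
  refine ⟨A', B', c', ?_, ?_, fun i hi => ?_⟩
  · rintro h3
    rw [h3, map_zero] at h2
    exact h.c_ne h2.symm
  · apply map_injective _ hinjQ
    rw [h1, Polynomial.map_mul, map_C, h2]
  · obtain ⟨h3, h4⟩ := h.pt i hi
    rw [eval_map_apply] at h3 h4
    rw [eval_map_apply] at h3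
    refine ⟨?_, fun h5 => h4 (by rw [h5, map_zero])⟩
    apply hinjQ
    rw [map_add, map_mul, h3, map_zero]

end Pool.Agent.Rank22
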