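import Pool.Agent.R22.Points
import Pool.Agent.Rank22.Geo2
import Pool.Agent.Rank22.Geo3
import Pool.Agent.Rank22.Norm

/-!
# Combinations of the points which are torsion
-/

set_option autoImplicit false

noncomputable section

namespace Pool.Agent.Rank22

open Pool.Agent.ZCyc Pool.Agent.Dess Pool.Agent.Dess4 Pool.Agent.FPZ Pool.Agent.R22 Polynomial
open scoped Classical

variable {F : Type} [Field F] [Algebra QQ F] {x y : F} {ι : Type} [Fintype ι]

omit [Algebra QQ F] [Fintype ι] in
theorem unq_apply {k : Type} [Field k] [Algebra k F] (D : Place k F →₀ ℤ) (v : Place k F) :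
    (unq D) (fun _ => v) = D v := by
  induction D using Finsupp.induction_linear with
  | zero => simp
  | add A B hA hB => rw [map_add, Finsupp.add_apply, Finsupp.add_apply, hA, hB]
  | single p n =>
    rw [unq_single, Finsupp.single_apply, Finsupp.single_apply]
    by_cases h : p = v
    · rw [if_pos h, if_pos (funext fun _ => h)]
    · rw [if_neg h, if_neg fun h6 => h (congrFun h6 ())]

/-- A combination of the divisors `P i - i P i` at rational points which is torsion gives a
solution over the rational numbers. -/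
theorem sol_of_ratEq {f : ℚ[X]} (h : HypField (f.map (algebraMap ℚ QQ)) x y) (hsep : f.Separable)
    (hdeg : f.natDegree = 6) {xi yi : ι → ℚ} (hinj : Function.Injective xi)
    (hy0 : ∀ i, yi i ≠ 0) {P P' : ι → Place QQ F}
    (hP : ∀ i, (P i).At x (algebraMap ℚ QQ (xi i)))
    (hPy : ∀ i, (P i).At y (algebraMap ℚ QQ (yi i)))
    (hP' : ∀ i, (P' i).At x (algebraMap ℚ QQ (xi i)))
    (hPy' : ∀ i, (P' i).At y (-algebraMap ℚ QQ (yi i))) (n : ι → ℤ)
    (hn : unq (∑ i, n i • (Finsupp.single (P i) 1 - Finsupp.single (P' i) 1)) ∈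
      RatEq (k := QQ) fun _ : Unit => F) :
    ∃ (m : ℕ) (A B : ℚ[X]) (c : ℚ), 0 < m ∧ Sol f xi (fun i => if 0 ≤ n i then yi i else -yi i)
      (fun i => 2 * (m * (n i).natAbs)) A B c := by
  have hinjQ : Function.Injective (algebraMap ℚ QQ) := (algebraMap ℚ QQ).injective
  obtain ⟨m, G, hm, hG0, hG⟩ := ratEq_fun h.curve hn
  have hG' : ∀ v, HasOrd v G ((∑ i, ((m : ℤ) * n i) •
      (Finsupp.single (P i) 1 - Finsupp.single (P' i) 1) : Place QQ F →₀ ℤ) v) := by
    intro v
    convert hG v using 1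
    rw [unq_apply, ← smul_eq_mul, ← Finsupp.smul_apply, Finset.smul_sum]
    simp only [smul_smul]
  obtain ⟨A, B, c, h1, h2, h3⟩ := geo h (hsep.map) (by
    rw [natDegree_map, hdeg]) (xi := fun i => algebraMap ℚ QQ (xi i))
    (yi := fun i => algebraMap ℚ QQ (yi i)) (hinjQ.comp hinj)
    (fun i => (map_ne_zero_iff _ hinjQ).2 (hy0 i)) hP hPy hP' hPy' (fun i => (m : ℤ) * n i) hG0 hG'
  have e1 : (fun i => if 0 ≤ (m : ℤ) * n i then algebraMap ℚ QQ (yi i)
      else -algebraMap ℚ QQ (yi i)) =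
      fun i => algebraMap ℚ QQ (if 0 ≤ n i then yi i else -yi i) := by
    funext i
    have h4 : 0 ≤ (m : ℤ) * n i ↔ 0 ≤ n i := mul_nonneg_iff_of_pos_left (by exact_mod_cast hm)
    by_cases h5 : 0 ≤ n i
    · rw [if_pos h5, if_pos (h4.2 h5)]
    · rw [if_neg h5, if_neg fun h6 => h5 (h4.1 h6), map_neg]
  have e2 : ∀ i, ((m : ℤ) * n i).natAbs = m * (n i).natAbs := by
    intro i
    rw [Int.natAbs_mul, Int.natAbs_natCast]
  simp only [e2] at h1 h2 h3
  rw [e1] at h1
  obtain ⟨A', B', c', h4⟩ := sol_rat h1 (fun i => by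
    split_ifs
    · exact hy0 i
    · exact neg_ne_zero.2 (hy0 i)) (d := ∑ i, m * (n i).natAbs)
    (by rw [Finset.mul_sum]) h2 h3
  exact ⟨m, A', B', c', hm, h4⟩

theorem sextic_map : (sextic ℚ).map (algebraMap ℚ QQ) = sextic QQ := by
  simp [sextic]

theorem px_map (n : ℕ) : algebraMap ℚ QQ (px ℚ n) = px QQ n := by
  simp [px]

theorem py_map (n : ℕ) : algebraMap ℚ QQ (py ℚ n) = py QQ n := by
  simp [py]

/-- A combination of the 22 classes which is torsion gives a solution over the rational numbers. -/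
theorem sol_sextic (h : HypField (sextic QQ) x y) {P : ℕ → Bool → Place QQ F}
    (hP : ∀ n < 321, ∀ s : Bool,
      (P n s).At x (px QQ n) ∧ (P n s).At y ((sg s : QQ) * py QQ n)) {m : ℕ → ℤ}
    (hm : unq (∑ i ∈ Finset.range 22, m i •
      (Finsupp.single (P i true) 1 - Finsupp.single (P i false) 1)) ∈
        RatEq (k := QQ) fun _ : Unit => F) :
    ∃ (N : ℕ) (A B : ℚ[X]) (c : ℚ), 0 < N ∧ Sol (sextic ℚ) (fun i : Fin 22 => px ℚ i)
      (fun i : Fin 22 => if 0 ≤ m i then py ℚ i else -py ℚ i)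
      (fun i : Fin 22 => 2 * (N * (m i).natAbs)) A B c := by
  have hlt : ∀ i : Fin 22, (i : ℕ) < 321 := fun i => by omega
  refine sol_of_ratEq (f := sextic ℚ) (x := x) (y := y) (by rwa [sextic_map]) sextic_separable
    sextic_degree (xi := fun i : Fin 22 => px ℚ i) (yi := fun i : Fin 22 => py ℚ i)
    (fun i j hij => Fin.ext (px_inj (hlt i) (hlt j) hij)) (fun i => py_ne (hlt i))
    (P := fun i : Fin 22 => P i true) (P' := fun i : Fin 22 => P i false)
    (fun i => ?_) (fun i => ?_) (fun i => ?_) (fun i => ?_) (fun i => m i) ?_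
  · rw [px_map]
    exact (hP i (hlt i) true).1
  · rw [py_map]
    simpa [sg] using (hP i (hlt i) true).2
  · rw [px_map]
    exact (hP i (hlt i) false).1
  · rw [py_map]
    simpa [sg] using (hP i (hlt i) false).2
  · rw [Finset.sum_range] at hm
    exact hm

end Pool.Agent.Rank22
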