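import Pool.Agent.Rank22.Sol

/-!
# Integral functions `A + B y`, reduction modulo a prime
-/

set_option autoImplicit false

noncomputable section

namespace Pool.Agent.Rank22

open Polynomial

variable {ι : Type*} [Fintype ι]

/-- An integral solution: `A`, `B` are integral polynomials without a common prime divisor. -/
structure IntSol (F : ℤ[X]) (r s : ι → ℤ) (a : ι → ℕ) (A B : ℤ[X]) (c : ℤ) : Prop where
  c_ne : c ≠ 0
  eq : A ^ 2 - F * B ^ 2 = C c * ∏ i, (C (s i) * X - C (r i)) ^ a i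
  prim : ∀ p : ℕ, p.Prime →
    ¬ (A.map (Int.castRingHom (ZMod p)) = 0 ∧ B.map (Int.castRingHom (ZMod p)) = 0)

theorem map_zmod_eq_zero {p : ℕ} {A : ℤ[X]} :
    A.map (Int.castRingHom (ZMod p)) = 0 ↔ C (p : ℤ) ∣ A := by
  rw [C_dvd_iff_dvd_coeff, Polynomial.ext_iff]
  refine forall_congr' fun i => ?_
  rw [coeff_map, coeff_zero, eq_intCast, ZMod.intCast_zmod_eq_zero_iff_dvd]

theorem exists_int_poly (A : ℚ[X]) :
    ∃ (d : ℤ) (A' : ℤ[X]), d ≠ 0 ∧ A'.map (Int.castRingHom ℚ) = C (d : ℚ) * A := by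
  obtain ⟨b, hb⟩ := IsLocalization.integerNormalization_map_to_map (nonZeroDivisors ℤ) A
  refine ⟨b, _, nonZeroDivisors.coe_ne_zero b, hb.trans ?_⟩
  rw [zsmul_eq_mul]
  simp

/-- A pair of rational polynomials, not both zero, has a multiple which is a primitive pair of
integral polynomials. -/
theorem exists_prim (A B : ℚ[X]) (h : ¬ (A = 0 ∧ B = 0)) :
    ∃ (A' B' : ℤ[X]) (w : ℚ), w ≠ 0 ∧ A'.map (Int.castRingHom ℚ) = C w * A ∧
      B'.map (Int.castRingHom ℚ) = C w * B ∧ ∀ p : ℕ, p.Prime →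
        ¬ (A'.map (Int.castRingHom (ZMod p)) = 0 ∧ B'.map (Int.castRingHom (ZMod p)) = 0) := by
  obtain ⟨d₁, A₁, hd₁, hA₁⟩ := exists_int_poly A
  obtain ⟨d₂, B₁, hd₂, hB₁⟩ := exists_int_poly B
  have hinj : Function.Injective (Polynomial.map (Int.castRingHom ℚ)) :=
    Polynomial.map_injective _ (RingHom.injective_int _)
  set A₂ : ℤ[X] := C d₂ * A₁ with hA₂
  set B₂ : ℤ[X] := C d₁ * B₁ with hB₂
  have eA : A₂.map (Int.castRingHom ℚ) = C ((d₁ * d₂ : ℤ) : ℚ) * A := by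
    rw [hA₂, Polynomial.map_mul, hA₁, map_C, Int.cast_mul, C_mul, eq_intCast]
    ring
  have eB : B₂.map (Int.castRingHom ℚ) = C ((d₁ * d₂ : ℤ) : ℚ) * B := by
    rw [hB₂, Polynomial.map_mul, hB₁, map_C, Int.cast_mul, C_mul, eq_intCast]
    ring
  have hd : ((d₁ * d₂ : ℤ) : ℚ) ≠ 0 := Int.cast_ne_zero.2 (mul_ne_zero hd₁ hd₂)
  have hne : ¬ (A₂ = 0 ∧ B₂ = 0) := by
    rintro ⟨h1, h2⟩
    apply h
    rw [h1, Polynomial.map_zero] at eA
    rw [h2, Polynomial.map_zero] at eB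
    constructor
    · rcases mul_eq_zero.1 eA.symm with h3 | h3
      · exact absurd (C_eq_zero.1 h3) hd
      · exact h3
    · rcases mul_eq_zero.1 eB.symm with h3 | h3
      · exact absurd (C_eq_zero.1 h3) hd
      · exact h3
  set g : ℤ := gcd A₂.content B₂.content with hg
  have hg0 : g ≠ 0 := by
    intro h0
    rw [hg, gcd_eq_zero_iff, content_eq_zero_iff, content_eq_zero_iff] at h0
    exact hne h0
  obtain ⟨A', hA'⟩ : C g ∣ A₂ := (dvd_content_iff_C_dvd).1 (gcd_dvd_left _ _)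
  obtain ⟨B', hB'⟩ : C g ∣ B₂ := (dvd_content_iff_C_dvd).1 (gcd_dvd_right _ _)
  have hgQ : (g : ℚ) ≠ 0 := Int.cast_ne_zero.2 hg0
  refine ⟨A', B', ((d₁ * d₂ : ℤ) : ℚ) / g, div_ne_zero hd hgQ, ?_, ?_, ?_⟩
  · apply mul_left_cancel₀ (C_ne_zero.2 hgQ)
    rw [← mul_assoc, ← C_mul, mul_div_cancel₀ _ hgQ, ← eA, hA', Polynomial.map_mul, map_C,
      eq_intCast]
  · apply mul_left_cancel₀ (C_ne_zero.2 hgQ)
    rw [← mul_assoc, ← C_mul, mul_div_cancel₀ _ hgQ, ← eB, hB', Polynomial.map_mul, map_C,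
      eq_intCast]
  · rintro p hp ⟨h1, h2⟩
    rw [map_zmod_eq_zero] at h1 h2
    have h3 : C (g * p : ℤ) ∣ A₂ := by
      rw [hA', C_mul]
      exact mul_dvd_mul_left _ h1
    have h4 : C (g * p : ℤ) ∣ B₂ := by
      rw [hB', C_mul]
      exact mul_dvd_mul_left _ h2
    have h5 : g * p ∣ g * 1 := by
      rw [mul_one, hg]
      exact dvd_gcd (dvd_content_iff_C_dvd.2 h3) (dvd_content_iff_C_dvd.2 h4)
    have h6 : (p : ℤ) ∣ 1 := (mul_dvd_mul_iff_left hg0).1 h5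
    have h7 : p ∣ 1 := by exact_mod_cast h6
    exact hp.one_lt.ne' (Nat.dvd_one.1 h7)

theorem prim_lin {r s : ℤ} (h : IsCoprime r s) : (C s * X - C r : ℤ[X]).IsPrimitive := by
  intro q hq
  rw [C_dvd_iff_dvd_coeff] at hq
  have h0 : q ∣ r := by
    have := hq 0
    simpa using this
  have h1 : q ∣ s := by
    have := hq 1
    rw [coeff_sub, coeff_C_mul, coeff_X_one, mul_one, coeff_C, if_neg one_ne_zero, sub_zero] at this
    exact this
  obtain ⟨u, v, huv⟩ := h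
  apply isUnit_of_dvd_one
  rw [← huv]
  exact dvd_add (h0.mul_left _) (h1.mul_left _)

theorem prim_prod {r s : ι → ℤ} (h : ∀ i, IsCoprime (r i) (s i)) (a : ι → ℕ) :
    (∏ i, (C (s i) * X - C (r i) : ℤ[X]) ^ a i).IsPrimitive := by
  refine Finset.prod_induction _ IsPrimitive (fun _ _ h1 h2 => h1.mul h2) isPrimitive_one ?_
  intro i _
  induction a i with
  | zero => rw [pow_zero]; exact isPrimitive_one
  | succ n ih => rw [pow_succ]; exact ih.mul (prim_lin (h i))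

theorem Sol.exists_int {F : ℤ[X]} {r s : ι → ℤ} {a : ι → ℕ} {y : ι → ℚ} {A B : ℚ[X]} {c : ℚ}
    (hs : ∀ i, s i ≠ 0) (hcop : ∀ i, IsCoprime (r i) (s i))
    (h : Sol (F.map (Int.castRingHom ℚ)) (fun i => (r i : ℚ) / s i) y a A B c) :
    ∃ (A' B' : ℤ[X]) (c' : ℤ) (w : ℚ), w ≠ 0 ∧ IntSol F r s a A' B' c' ∧
      (c' : ℚ) * ∏ i, (s i : ℚ) ^ a i = w ^ 2 * c := by
  have hne : ¬ (A = 0 ∧ B = 0) := by
    rintro ⟨rfl, rfl⟩
    have := h.eq
    simp only [ne_eq, OfNat.ofNat_ne_zero, not_false_eq_true, zero_pow, mul_zero, sub_zero] at this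
    exact mul_ne_zero (C_ne_zero.2 h.c_ne) (prod_pow_ne _ _) this.symm
  obtain ⟨A', B', w, hw, eA, eB, hprim⟩ := exists_prim A B hne
  have hS : (∏ i, (s i : ℚ) ^ a i) ≠ 0 :=
    Finset.prod_ne_zero_iff.2 fun i _ => pow_ne_zero _ (Int.cast_ne_zero.2 (hs i))
  set q : ℚ := w ^ 2 * c / ∏ i, (s i : ℚ) ^ a i with hq
  set P : ℤ[X] := ∏ i, (C (s i) * X - C (r i)) ^ a i with hP
  have hmapP : P.map (Int.castRingHom ℚ) =
      C (∏ i, (s i : ℚ) ^ a i) * ∏ i, (X - C ((r i : ℚ) / s i)) ^ a i := by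
    rw [hP, Polynomial.map_prod, map_prod, ← Finset.prod_mul_distrib]
    refine Finset.prod_congr rfl fun i _ => ?_
    rw [Polynomial.map_pow, C_pow, ← mul_pow]
    congr 1
    have : (s i : ℚ) ≠ 0 := Int.cast_ne_zero.2 (hs i)
    rw [mul_sub, ← C_mul, mul_div_cancel₀ _ this]
    simp
  have h1 : (A' ^ 2 - F * B' ^ 2).map (Int.castRingHom ℚ) = C q * P.map (Int.castRingHom ℚ) := by
    rw [hmapP, ← mul_assoc, ← C_mul, hq, div_mul_cancel₀ _ hS, C_mul, mul_assoc, ← h.eq]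
    simp only [Polynomial.map_sub, Polynomial.map_mul, Polynomial.map_pow, eA, eB, C_pow]
    ring
  have hinj : Function.Injective (Polynomial.map (Int.castRingHom ℚ)) :=
    Polynomial.map_injective _ (RingHom.injective_int _)
  have h2 : C (q.den : ℤ) * (A' ^ 2 - F * B' ^ 2) = C q.num * P := by
    apply hinj
    rw [Polynomial.map_mul, h1, Polynomial.map_mul, map_C, map_C, ← mul_assoc, ← C_mul]
    congr 2
    simp only [eq_intCast, Int.cast_natCast]
    exact Rat.den_mul_eq_num q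
  have h3 : (q.den : ℤ) ∣ q.num := by
    have h4 : C (q.den : ℤ) ∣ C q.num * P := ⟨_, h2.symm⟩
    have h5 : (q.den : ℤ) ∣ (C q.num * P).content := dvd_content_iff_C_dvd.2 h4
    rw [content_C_mul, (prim_prod hcop a).content_eq_one, mul_one] at h5
    exact h5.trans (normalize_associated _).dvd
  have h4 : q.den = 1 := by
    have h5 : q.den ∣ q.num.natAbs := by
      have := Int.natAbs_dvd_natAbs.2 h3
      simpa using this
    exact Nat.Coprime.eq_one_of_dvd q.reduced.symm h5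
  refine ⟨A', B', q.num, w, hw, ⟨?_, ?_, hprim⟩, ?_⟩
  · rw [Rat.num_ne_zero, hq]
    exact div_ne_zero (mul_ne_zero (pow_ne_zero 2 hw) h.c_ne) hS
  · rw [← h2, h4]
    simp
  · have : (q.num : ℚ) = q := by
      conv_rhs => rw [← Rat.num_div_den q, h4]
      simp
    rw [this, hq, div_mul_cancel₀ _ hS]

end Pool.Agent.Rank22
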