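import Pool.Agent.Rank22.Curve

/-!
# The sextic polynomial is irreducible over the rational numbers
-/

set_option autoImplicit false

noncomputable section

namespace Pool.Agent.Rank22

open Polynomial

instance : Fact (Nat.Prime 7) := ⟨by norm_num⟩

/-- A monic polynomial of degree at most three does not divide `f` modulo 7. -/
theorem no_factor (h g : (ZMod 7)[X]) (hh : h.Monic) (hg : g.Monic) (h1 : 0 < h.natDegree)
    (h3 : h.natDegree ≤ 3) : h * g ≠ poly7 2 1 6 1 3 2 1 := by
  intro e
  have hdeg : h.natDegree + g.natDegree = 6 := by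
    rw [← natDegree_mul hh.ne_zero hg.ne_zero, e]
    exact poly7_natDegree _ _ _ _ _ _ _ one_ne_zero
  obtain ⟨a, ha⟩ : ∃ a : ℕ → ZMod 7, ∀ k, h.coeff k = a k := ⟨_, fun _ => rfl⟩
  obtain ⟨b, hb⟩ : ∃ b : ℕ → ZMod 7, ∀ k, g.coeff k = b k := ⟨_, fun _ => rfl⟩
  have hc : ∀ k : ℕ, (h * g).coeff k = ∑ i ∈ Finset.range (k + 1), a i * b (k - i) := by
    intro k
    rw [coeff_mul, Finset.Nat.sum_antidiagonal_eq_sum_range_succ_mk]
    exact Finset.sum_congr rfl fun x _ => by rw [ha, hb]
  rw [e] at hc
  simp only [poly7_coeff] at hc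
  have c0 := hc 0
  have c1 := hc 1
  have c2 := hc 2
  have c3 := hc 3
  have c4 := hc 4
  have c5 := hc 5
  simp [Finset.sum_range_succ] at c0 c1 c2 c3 c4 c5
  have a0 : ∀ k, h.natDegree < k → a k = 0 := fun k hk => by
    rw [← ha]; exact coeff_eq_zero_of_natDegree_lt hk
  have b0 : ∀ k, g.natDegree < k → b k = 0 := fun k hk => by
    rw [← hb]; exact coeff_eq_zero_of_natDegree_lt hk
  have a1 : a h.natDegree = 1 := by rw [← ha]; exact hh
  have b1 : b g.natDegree = 1 := by rw [← hb]; exact hg
  clear hc ha hb e hh hg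
  generalize h.natDegree = m at *
  generalize g.natDegree = n at *
  interval_cases m
  · obtain rfl : n = 5 := by omega
    rw [a0 2 (by omega), a0 3 (by omega), a0 4 (by omega), a0 5 (by omega), a1, b1] at c5
    rw [a0 2 (by omega), a0 3 (by omega), a0 4 (by omega), a1] at c4
    rw [a0 2 (by omega), a0 3 (by omega), a1] at c3
    rw [a0 2 (by omega), a1] at c2
    rw [a1] at c1
    clear a0 b0 a1 b1
    generalize a 0 = a0 at *
    generalize b 0 = b0 at *
    generalize b 1 = b1 at *
    generalize b 2 = b2 at *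
    generalize b 3 = b3 at *
    generalize b 4 = b4 at *
    obtain rfl : b4 = 2 - a0 := by linear_combination -c5
    obtain rfl : b3 = 3 - a0 * (2 - a0) := by linear_combination -c4
    obtain rfl : b2 = 1 - a0 * (3 - a0 * (2 - a0)) := by linear_combination -c3
    obtain rfl : b1 = 6 - a0 * (1 - a0 * (3 - a0 * (2 - a0))) := by linear_combination -c2
    obtain rfl : b0 = 1 - a0 * (6 - a0 * (1 - a0 * (3 - a0 * (2 - a0)))) := by
      linear_combination -c1
    clear c1 c2 c3 c4 c5
    revert a0
    decide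
  · obtain rfl : n = 4 := by omega
    rw [a0 3 (by omega), a0 4 (by omega), a0 5 (by omega), a1, b1, b0 5 (by omega)] at c5
    rw [a0 3 (by omega), a0 4 (by omega), a1, b1] at c4
    rw [a0 3 (by omega), a1] at c3
    rw [a1] at c2
    clear a0 b0 a1 b1
    generalize a 0 = a0 at *
    generalize a 1 = a1 at *
    generalize b 0 = b0 at *
    generalize b 1 = b1 at *
    generalize b 2 = b2 at *
    generalize b 3 = b3 at *
    obtain rfl : b3 = 2 - a1 := by linear_combination -c5
    obtain rfl : b2 = 3 - a1 * (2 - a1) - a0 := by linear_combination -c4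
    obtain rfl : b1 = 1 - a1 * (3 - a1 * (2 - a1) - a0) - a0 * (2 - a1) := by
      linear_combination -c3
    obtain rfl : b0 = 6 - a1 * (1 - a1 * (3 - a1 * (2 - a1) - a0) - a0 * (2 - a1)) -
      a0 * (3 - a1 * (2 - a1) - a0) := by linear_combination -c2
    clear c2 c3 c4 c5
    revert a0 a1
    decide
  · obtain rfl : n = 3 := by omega
    rw [a0 4 (by omega), a0 5 (by omega), a1, b1, b0 5 (by omega), b0 4 (by omega)] at c5
    rw [a0 4 (by omega), a1, b1, b0 4 (by omega)] at c4
    rw [a1, b1] at c3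
    clear a0 b0 a1 b1
    generalize a 0 = a0 at *
    generalize a 1 = a1 at *
    generalize a 2 = a2 at *
    generalize b 0 = b0 at *
    generalize b 1 = b1 at *
    generalize b 2 = b2 at *
    obtain rfl : b2 = 2 - a2 := by linear_combination -c5
    obtain rfl : b1 = 3 - a2 * (2 - a2) - a1 := by linear_combination -c4
    obtain rfl : b0 = 1 - a2 * (3 - a2 * (2 - a2) - a1) - a1 * (2 - a2) - a0 := by
      linear_combination -c3
    clear c3 c4 c5
    revert a0 a1 a2
    decide

theorem sexticZ_map7 : sexticZ.map (Int.castRingHom (ZMod 7)) = poly7 2 1 6 1 3 2 1 := by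
  unfold sexticZ
  rw [poly7_map]
  congr 1 <;> decide

theorem monic7 : (poly7 2 1 6 1 3 2 1 : (ZMod 7)[X]).Monic :=
  poly7_leadingCoeff _ _ _ _ _ _ _ one_ne_zero

theorem irr7 : Irreducible (sexticZ.map (Int.castRingHom (ZMod 7))) := by
  rw [sexticZ_map7, monic7.irreducible_iff_natDegree']
  constructor
  · intro h
    have := congrArg natDegree h
    rw [poly7_natDegree _ _ _ _ _ _ _ one_ne_zero, natDegree_one] at this
    exact absurd this (by norm_num)
  · intro f g hf hg h hmem
    rw [poly7_natDegree _ _ _ _ _ _ _ one_ne_zero, Finset.mem_Ioc] at hmem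
    exact no_factor g f hg hf hmem.1 (by omega) (by rw [mul_comm]; exact h)

theorem sexticZ_prim : sexticZ.IsPrimitive := by
  intro q hq
  rw [C_dvd_iff_dvd_coeff] at hq
  have h3 := hq 3
  have h2 := hq 2
  have h4 := hq 4
  unfold sexticZ at h2 h3 h4
  rw [poly7_coeff] at h2 h3 h4
  simp at h2 h3 h4
  apply isUnit_of_dvd_one
  have h5 : q ∣ gcd (567207969 : ℤ) (gcd 52485681 2396040466) :=
    dvd_gcd h2 (dvd_gcd h4 h3)
  have h6 : gcd (567207969 : ℤ) (gcd 52485681 2396040466) = 1 := by
    rw [← Int.coe_gcd, ← Int.coe_gcd]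
    norm_num
  rwa [h6] at h5

theorem natDegree_map7 : (sexticZ.map (Int.castRingHom (ZMod 7))).natDegree = sexticZ.natDegree := by
  rw [sexticZ_map7, poly7_natDegree _ _ _ _ _ _ _ one_ne_zero]
  unfold sexticZ
  rw [poly7_natDegree _ _ _ _ _ _ _ (by norm_num)]

theorem sexticZ_irreducible : Irreducible sexticZ := by
  have h7 := irr7
  constructor
  · intro h
    exact h7.not_isUnit (h.map (mapRingHom (Int.castRingHom (ZMod 7))))
  · intro P Q hPQ
    have key : ∀ P Q : ℤ[X], sexticZ = P * Q →
        IsUnit (P.map (Int.castRingHom (ZMod 7))) → IsUnit P := by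
      intro P Q hPQ hu
      have hne : sexticZ ≠ 0 := sexticZ_prim.ne_zero
      have hP : P ≠ 0 := by
        rintro rfl
        exact hne (by rw [hPQ, zero_mul])
      have hQ : Q ≠ 0 := by
        rintro rfl
        exact hne (by rw [hPQ, mul_zero])
      have e := natDegree_map7
      rw [hPQ, Polynomial.map_mul, natDegree_mul hP hQ] at e
      have hm : P.map (Int.castRingHom (ZMod 7)) * Q.map (Int.castRingHom (ZMod 7)) ≠ 0 := by
        rw [← Polynomial.map_mul, ← hPQ]
        exact h7.ne_zero
      rw [natDegree_mul (left_ne_zero_of_mul hm) (right_ne_zero_of_mul hm),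
        natDegree_eq_zero_of_isUnit hu] at e
      have e2 : (Q.map (Int.castRingHom (ZMod 7))).natDegree ≤ Q.natDegree := natDegree_map_le
      have e3 : P.natDegree = 0 := by omega
      rw [eq_C_of_natDegree_eq_zero e3] at hPQ ⊢
      exact isUnit_C.2 (sexticZ_prim _ ⟨Q, hPQ⟩)
    have h1 : sexticZ.map (Int.castRingHom (ZMod 7)) =
        P.map (Int.castRingHom (ZMod 7)) * Q.map (Int.castRingHom (ZMod 7)) := by
      rw [← Polynomial.map_mul, ← hPQ]
    rcases h7.isUnit_or_isUnit h1 with h2 | h2
    · exact Or.inl (key P Q hPQ h2)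
    · exact Or.inr (key Q P (by rw [hPQ, mul_comm]) h2)

/-- The polynomial `f` is irreducible over the rational numbers. -/
theorem sexticQ_irreducible : Irreducible sexticQ :=
  (IsPrimitive.Int.irreducible_iff_irreducible_map_cast sexticZ_prim).1 sexticZ_irreducible

end Pool.Agent.Rank22
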