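import Pool.Agent.Rank22.Int

/-!
# Reduction modulo a prime of the norm of an integral function
-/

set_option autoImplicit false

noncomputable section

namespace Pool.Agent.Rank22

open Polynomial

variable {ι : Type*} [Fintype ι] {F : ℤ[X]} {r s : ι → ℤ} {a : ι → ℕ} {A B : ℤ[X]} {c : ℤ}

/-- A prime divisor of the constant: `f` is a square modulo `p`. -/
theorem IntSol.not_dvd (h : IntSol F r s a A B c) {p : ℕ} (hpp : p.Prime)
    (hp : ∀ g : (ZMod p)[X], F.map (Int.castRingHom (ZMod p)) ≠ g ^ 2) : ¬ (p : ℤ) ∣ c := by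
  intro hdvd
  have : Fact p.Prime := ⟨hpp⟩
  set φ := Int.castRingHom (ZMod p) with hφ
  have h1 : A.map φ ^ 2 = F.map φ * B.map φ ^ 2 := by
    have h2 := congrArg (Polynomial.map φ) h.eq
    have h3 : φ c = 0 := (ZMod.intCast_zmod_eq_zero_iff_dvd c p).2 hdvd
    simp only [Polynomial.map_sub, Polynomial.map_mul, Polynomial.map_pow, map_C, h3, C_0,
      zero_mul] at h2
    exact sub_eq_zero.1 h2
  have hB : B.map φ ≠ 0 := by
    intro hB
    rw [hB] at h1
    have hA : A.map φ = 0 := by simpa using h1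
    exact h.prim p hpp ⟨hA, hB⟩
  have h2 : B.map φ ∣ A.map φ := by
    rw [← IsIntegrallyClosed.pow_dvd_pow_iff (two_ne_zero)]
    exact ⟨F.map φ, by rw [h1]; ring⟩
  obtain ⟨G, hG⟩ := h2
  apply hp G
  have h3 : B.map φ ^ 2 * F.map φ = B.map φ ^ 2 * G ^ 2 := by
    rw [← mul_pow, ← hG, h1]
    ring
  exact mul_left_cancel₀ (pow_ne_zero 2 hB) h3

/-- A root of `f` modulo `p` yields a relation between Legendre symbols. -/
theorem IntSol.root (h : IntSol F r s a A B c) {p : ℕ} (hpp : p.Prime) (hp2 : p ≠ 2)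
    (hpc : ¬ (p : ℤ) ∣ c) (t : ZMod p) (ht : (F.map (Int.castRingHom (ZMod p))).eval t = 0)
    (hne : ∀ i, (s i : ZMod p) * t - r i ≠ 0) :
    ((c : ZMod p) * ∏ i, ((s i : ZMod p) * t - r i) ^ a i) ^ ((p - 1) / 2) = 1 := by
  have : Fact p.Prime := ⟨hpp⟩
  set φ := Int.castRingHom (ZMod p) with hφ
  have h1 : (A.map φ).eval t ^ 2 = (c : ZMod p) * ∏ i, ((s i : ZMod p) * t - r i) ^ a i := by
    have h2 := congrArg (fun q : ℤ[X] => (q.map φ).eval t) h.eq
    simp only [Polynomial.map_sub, Polynomial.map_mul, Polynomial.map_pow, map_C,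
      Polynomial.map_prod, eval_sub, eval_mul, eval_pow, eval_C, eval_prod, ht, zero_mul,
      sub_zero, map_X, eval_X] at h2
    rw [h2]
    simp [hφ]
  have h0 : (A.map φ).eval t ≠ 0 := by
    intro h0
    rw [h0, zero_pow two_ne_zero] at h1
    have h3 : (c : ZMod p) ≠ 0 := fun h4 => hpc ((ZMod.intCast_zmod_eq_zero_iff_dvd c p).1 h4)
    exact mul_ne_zero h3 (Finset.prod_ne_zero_iff.2 fun i _ => pow_ne_zero _ (hne i)) h1.symm
  rw [← h1, ← pow_mul]
  have h5 : 2 * ((p - 1) / 2) = p - 1 := by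
    have := hpp.eq_two_or_odd
    omega
  rw [h5]
  exact ZMod.pow_card_sub_one_eq_one h0

end Pool.Agent.Rank22
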