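import Pool.Agent.Rank22.Cert

/-!
# Linear algebra over the field with two elements
-/

set_option autoImplicit false

noncomputable section

namespace Pool.Agent.Rank22

open Polynomial

theorem resid_cast {p : ℕ} [Fact p.Prime] (v : ℤ) :
    ((resid p v : ℕ) : ZMod p) = (v : ZMod p) ^ ((p - 1) / 2) := by
  unfold resid
  rw [ZMod.natCast_mod, Nat.cast_pow]
  congr 1
  have hp : (p : ℤ) ≠ 0 := Int.natCast_ne_zero.2 (Fact.out : p.Prime).ne_zero
  have h1 : ((v % p).toNat : ℤ) = v % p := Int.toNat_of_nonneg (Int.emod_nonneg _ hp)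
  have h2 : (((v % p).toNat : ℤ) : ZMod p) = (v : ZMod p) := by
    rw [h1, ZMod.intCast_mod]
  rwa [Int.cast_natCast] at h2

/-- The sum of the exponents selected by the digits of `m`, modulo two. -/
def phi (e : Fin 7 → ℕ) (a : Fin 22 → ℕ) (m : ℕ) : ZMod 2 :=
  (∑ j : Fin 7, if m.testBit j then (e j : ZMod 2) else 0) +
    ∑ i : Fin 22, if m.testBit (7 + i) then (a i : ZMod 2) else 0

theorem phi_zero (e : Fin 7 → ℕ) (a : Fin 22 → ℕ) : phi e a 0 = 0 := by
  simp [phi]

theorem phi_xor (e : Fin 7 → ℕ) (a : Fin 22 → ℕ) (m n : ℕ) :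
    phi e a (m ^^^ n) = phi e a m + phi e a n := by
  have h2 : ∀ (b c : Bool) (x : ZMod 2), (if (b ^^ c) = true then x else 0) =
      (if b = true then x else 0) + if c = true then x else 0 := by
    intro b c x
    cases b <;> cases c <;> simp
    exact (CharTwo.add_self_eq_zero x).symm
  unfold phi
  simp only [Nat.testBit_xor, h2, Finset.sum_add_distrib]
  abel

theorem phi_xorSel (e : Fin 7 → ℕ) (a : Fin 22 → ℕ) (rs : List ℕ)
    (h : ∀ r ∈ rs, phi e a r = 0) (s : ℕ) : phi e a (xorSel rs s) = 0 := by
  induction rs generalizing s with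
  | nil => exact phi_zero e a
  | cons r rs ih =>
    rw [xorSel, phi_xor, ih (fun r hr => h r (List.mem_cons_of_mem _ hr)), add_zero]
    split_ifs
    · exact h r List.mem_cons_self
    · exact phi_zero e a

theorem phi_unit (e : Fin 7 → ℕ) (a : Fin 22 → ℕ)
    (h : ∀ r ∈ (536870784 :: table.map Row.m), phi e a r = 0) (j : Fin 29) :
    phi e a (2 ^ (j : ℕ)) = 0 := by
  have h1 := List.all_eq_true.1 comb_ok j (List.mem_finRange j)
  rw [beq_iff_eq] at h1
  rw [← h1]
  exact phi_xorSel e a _ h _

theorem even_of_rows (e : Fin 7 → ℕ) (a : Fin 22 → ℕ)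
    (h : ∀ r ∈ (536870784 :: table.map Row.m), phi e a r = 0) :
    (∀ j, Even (e j)) ∧ ∀ i, Even (a i) := by
  constructor
  · intro j
    have h1 := phi_unit e a h ⟨j, by omega⟩
    unfold phi at h1
    simp only [Nat.testBit_two_pow] at h1
    rw [Finset.sum_eq_single j, Finset.sum_eq_zero, add_zero] at h1
    · simp only [decide_true, if_true] at h1
      exact (ZMod.natCast_eq_zero_iff_even).1 h1
    · intro i _
      rw [if_neg]
      simp only [decide_eq_true_eq]
      omega
    · intro i _ hi
      rw [if_neg]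
      simp only [decide_eq_true_eq]
      intro h2
      exact hi (Fin.ext h2.symm)
    · intro hj
      exact absurd (Finset.mem_univ j) hj
  · intro i
    have h1 := phi_unit e a h ⟨7 + i, by omega⟩
    unfold phi at h1
    simp only [Nat.testBit_two_pow] at h1
    rw [Finset.sum_eq_zero, zero_add, Finset.sum_eq_single i] at h1
    · simp only [decide_true, if_true] at h1
      exact (ZMod.natCast_eq_zero_iff_even).1 h1
    · intro j _ hj
      rw [if_neg]
      simp only [decide_eq_true_eq]
      intro h2
      exact hj (Fin.ext (by omega))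
    · intro hj
      exact absurd (Finset.mem_univ i) hj
    · intro j _
      rw [if_neg]
      simp only [decide_eq_true_eq]
      omega


end Pool.Agent.Rank22
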