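import Pool.Agent.Rank22.Final
import Pool.Agent.Rank22.Geo4

/-!
# The rank is at least 22
-/

set_option autoImplicit false

noncomputable section

namespace Pool.Agent.Rank22

open Pool.Agent.ZCyc Pool.Agent.Dess Pool.Agent.Dess4 Pool.Agent.FPZ Pool.Agent.R22 Polynomial
open scoped Classical

theorem pta_eq : ∀ i : Fin 22, (pta i).1 = num i ∧ ((pta i).2.1 : ℤ) = den i := by decide

theorem px_eq (i : Fin 22) : px ℚ i = absc i := by
  obtain ⟨h1, h2⟩ := pta_eq i
  rw [px, absc, ← h1, ← h2]
  simp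

theorem sextic_eq : sextic ℚ = sexticQ := by
  rw [sexticQ_eq]
  unfold sextic poly7
  simp only [C_neg]
  ring

/-- **The 22 classes of the divisors `P i - i P i` are independent.** -/
theorem rank {F : Type} [Field F] [Algebra QQ F] {x y : F} (h : HypField (sextic QQ) x y)
    {P : ℕ → Bool → Place QQ F}
    (hP : ∀ n < 321, ∀ s : Bool,
      (P n s).At x (px QQ n) ∧ (P n s).At y ((sg s : QQ) * py QQ n)) {m : ℕ → ℤ}
    (hm : unq (∑ i ∈ Finset.range 22, m i •
      (Finsupp.single (P i true) 1 - Finsupp.single (P i false) 1)) ∈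
        RatEq (k := QQ) fun _ : Unit => F) : ∀ i < 22, m i = 0 := by
  obtain ⟨N, A, B, c, hN, hS⟩ := sol_sextic h hP hm
  have hx : (fun i : Fin 22 => px ℚ i) = absc := funext px_eq
  rw [sextic_eq, hx] at hS
  have hlt : ∀ i : Fin 22, (i : ℕ) < 321 := fun i => by omega
  have h1 := sol_zero (fun i => by
    split_ifs
    · exact py_ne (hlt i)
    · exact neg_ne_zero.2 (py_ne (hlt i))) (fun i => by
      rw [← sextic_eq, ← px_eq, ← py_sq (hlt i)]
      split_ifs
      · rfl
      · rw [neg_sq]) hS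
  intro i hi
  have h2 := h1 ⟨i, hi⟩
  simp only at h2
  have h3 : (m i).natAbs = 0 := by
    rcases Nat.mul_eq_zero.1 h2 with h4 | h4
    · omega
    · rcases Nat.mul_eq_zero.1 h4 with h5 | h5
      · omega
      · exact h5
  exact Int.natAbs_eq_zero.1 h3

end Pool.Agent.Rank22
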