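import Pool.Agent.Rank22.Par

/-!
# The rows of the table
-/

set_option autoImplicit false

noncomputable section

namespace Pool.Agent.Rank22

open Polynomial

theorem Row.ok_all {x : Row} (hx : x.ok = true) :
    (∀ j : Fin 7, resid x.p (qq j) = if x.m.testBit j then x.p - 1 else 1) ∧
    ∀ i : Fin 22, resid x.p (den i * x.t - num i) = if x.m.testBit (7 + i) then x.p - 1 else 1 := by
  unfold Row.ok at hx
  rw [Bool.and_eq_true, Bool.and_eq_true] at hx
  obtain ⟨⟨-, hq⟩, hv⟩ := hx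
  exact ⟨fun j => beq_iff_eq.1 (List.all_eq_true.1 hq j (List.mem_finRange j)),
    fun i => beq_iff_eq.1 (List.all_eq_true.1 hv i (List.mem_finRange i))⟩

theorem prod_bits {ι : Type*} [Fintype ι] {p : ℕ} [Fact p.Prime] (v : ι → ZMod p) (n : ι → ℕ)
    (b : ι → Bool) (h : ∀ i, v i ^ ((p - 1) / 2) = (-1) ^ (if b i then 1 else 0)) :
    (∏ i, v i ^ n i) ^ ((p - 1) / 2) = (-1) ^ (∑ i, if b i then n i else 0) := by
  rw [← Finset.prod_pow, ← Finset.prod_pow_eq_pow_sum]
  refine Finset.prod_congr rfl fun j _ => ?_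
  rw [← pow_mul, mul_comm (n j), pow_mul, h]
  split_ifs <;> simp

/-- One row of the table, abstractly. -/
theorem row_phi' {p : ℕ} (hp : p.Prime) (hp2 : p ≠ 2) (m : ℕ) (q : Fin 7 → ZMod p)
    (v : Fin 22 → ZMod p)
    (hq : ∀ j : Fin 7, q j ^ ((p - 1) / 2) = (-1) ^ (if m.testBit j then 1 else 0))
    (hv : ∀ i : Fin 22, v i ^ ((p - 1) / 2) = (-1) ^ (if m.testBit (7 + i) then 1 else 0))
    (e : Fin 7 → ℕ) (a : Fin 22 → ℕ)
    (h : ((∏ j, q j ^ e j) * ∏ i, v i ^ a i) ^ ((p - 1) / 2) = 1) :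
    phi e a m = 0 := by
  have : Fact p.Prime := ⟨hp⟩
  have hp1 : 2 < p := lt_of_le_of_ne hp.two_le hp2.symm
  rw [mul_pow, prod_bits q e _ hq, prod_bits v a _ hv, ← pow_add] at h
  have hne : (-1 : ZMod p) ≠ 1 := by
    have : Fact (2 < p) := ⟨hp1⟩
    exact ZMod.neg_one_ne_one
  have h2 : Even ((∑ j : Fin 7, if m.testBit j then e j else 0) +
      ∑ i : Fin 22, if m.testBit (7 + i) then a i else 0) := by
    by_contra h3
    rw [Nat.not_even_iff_odd] at h3
    rw [h3.neg_one_pow] at h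
    exact hne h
  have h3 := (ZMod.natCast_eq_zero_iff_even).2 h2
  rw [Nat.cast_add, Nat.cast_sum, Nat.cast_sum] at h3
  simp only [Nat.cast_ite, Nat.cast_zero] at h3
  exact h3

theorem bits_cast {p : ℕ} (hp : p.Prime) {v : ℤ} {b : Bool}
    (h : resid p v = if b then p - 1 else 1) :
    (v : ZMod p) ^ ((p - 1) / 2) = (-1) ^ (if b then 1 else 0) := by
  have : Fact p.Prime := ⟨hp⟩
  have hcast : ((p - 1 : ℕ) : ZMod p) = -1 := by
    rw [Nat.cast_sub hp.one_le]
    simp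
  rw [← resid_cast, h]
  cases b
  · simp
  · simp only [if_true, pow_one]
    exact hcast

end Pool.Agent.Rank22
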